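import Pool.Agent.V8H81.Rnd.Moment

set_option autoImplicit false

/-! Random heights over a fixed closed curve. -/

namespace Pool.Agent.V8H81.Rnd

open Finset LaurentPolynomial Pool.Agent.H891R2.Jones Pool.Agent.H832R3.VJ Pool.Agent.R811
open Pool.Agent.R811.Cross hiding sg

variable {n N : ℕ} (L : Layered n N)

theorem linked_inj {a b c d : ℕ} (h : Linked a b c d) :
    a ≠ b ∧ a ≠ c ∧ a ≠ d ∧ b ≠ c ∧ b ≠ d ∧ c ≠ d := by
  unfold Linked Shadow.Between at h
  omega

theorem good_inj (t : Fin 4 → Fin n) (h : L.Good t) : Function.Injective t := by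
  obtain ⟨h1, h2, h3, h4, h5, h6⟩ := linked_inj h.2.2
  have e : ∀ i j : Fin 4, i ≠ j → t i ≠ t j := by
    intro i j hij heq
    have he := congrArg Fin.val heq
    fin_cases i <;> fin_cases j <;> simp_all
  intro i j hij
  by_contra hne
  exact e i j hne hij

open Classical in
/-- the number of the quadruples of strands such that the first two cross exactly once, the last two
cross exactly once, and these pairs are linked -/
noncomputable def Layered.quads : ℕ := (Finset.univ.filter (fun t : Fin 4 → Fin n => L.Good t)).card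

theorem nu_eq (h : Equiv.Perm (Fin n)) : L.nu h = cnt L.Good h.symm := by
  unfold Layered.nu cnt
  rfl

theorem quads_le : L.quads ≤ n ^ 4 := by
  classical
  unfold Layered.quads
  refine (Finset.card_filter_le _ _).trans ?_
  rw [Finset.card_univ, Fintype.card_fun, Fintype.card_fin, Fintype.card_fin]

open Classical in
theorem main_real (c : ℤ) (μ : ℝ) (hμ : μ = ((n / 4 : ℕ) : ℝ) * L.quads / n.descFactorial 4)
    (h625 : 625 < μ) :
    μ * ((Finset.univ.filter (fun h : Equiv.Perm (Fin n) => moment 2 (L.lift h).fPoly = c)).card : ℝ) ^ 4 ≤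
      625 * (n.factorial : ℝ) ^ 4 := by
  have h0 : 0 < μ := by linarith
  have hn : 39 ≤ n := by
    by_contra hn
    have hn' : n < 39 := by omega
    have h1 : (L.quads : ℝ) ≤ n.descFactorial 4 := by
      exact_mod_cast card_le_desc L.Good (good_inj L)
    have h2 : ((n / 4 : ℕ) : ℝ) ≤ n / 4 := Nat.cast_div_le
    have h3 : (n : ℝ) < 39 := by exact_mod_cast hn'
    rcases Nat.eq_zero_or_pos (n.descFactorial 4) with h4 | h4
    · rw [hμ, h4] at h0
      simp at h0
    · have h5 : (0 : ℝ) < n.descFactorial 4 := by exact_mod_cast h4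
      have h6 : μ ≤ n / 4 := by
        rw [hμ, div_le_iff₀ h5]
        exact mul_le_mul h2 h1 (by positivity) (by positivity)
      linarith
  have hfew := few L.Good (good_inj L) hn μ hμ h0
  have hν : 0 < ⌈μ / 2⌉₊ := Nat.ceil_pos.2 (by linarith)
  have hc := L.count_le c ⌈μ / 2⌉₊ hν
  have e1 : ((Finset.univ.filter (fun h : Equiv.Perm (Fin n) => L.nu h < ⌈μ / 2⌉₊)).card : ℝ) =
      ((Finset.univ.filter (fun τ : Equiv.Perm (Fin n) => (cnt L.Good τ : ℝ) < μ / 2)).card : ℝ) := by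
    norm_cast
    refine Finset.card_bij (fun h _ => h.symm) ?_ ?_ ?_
    · intro h hh
      rw [Finset.mem_filter] at hh ⊢
      refine ⟨Finset.mem_univ _, ?_⟩
      rw [← nu_eq]
      exact Nat.lt_ceil.1 hh.2
    · intro h _ h' _ e
      exact Equiv.symm_bijective.1 e
    · intro τ hτ
      rw [Finset.mem_filter] at hτ
      refine ⟨τ.symm, ?_, Equiv.symm_symm τ⟩
      rw [Finset.mem_filter]
      refine ⟨Finset.mem_univ _, ?_⟩
      rw [nu_eq, Equiv.symm_symm]
      exact Nat.lt_ceil.2 hτ.2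
  rw [e1] at hc
  set X : ℝ := ((Finset.univ.filter (fun h : Equiv.Perm (Fin n) =>
    moment 2 (L.lift h).fPoly = c)).card : ℝ) with hX
  have hX0 : 0 ≤ X := by rw [hX]; positivity
  have hf : (0 : ℝ) < n.factorial := by exact_mod_cast n.factorial_pos
  set x : ℝ := μ ^ (1 / 4 : ℝ) with hx
  have hx0 : 0 < x := Real.rpow_pos_of_pos h0 _
  have hx4 : x ^ 4 = μ := by
    rw [hx, ← Real.rpow_natCast, ← Real.rpow_mul h0.le]
    have e4 : (1 / 4 : ℝ) * ((4 : ℕ) : ℝ) = 1 := by norm_num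
    rw [e4, Real.rpow_one]
  have hx5 : 5 ≤ x := by
    by_contra hlt
    have : x ^ 4 < 5 ^ 4 := pow_lt_pow_left₀ (not_le.1 hlt) hx0.le (by norm_num)
    rw [hx4] at this
    linarith
  have hroot : (162 / (⌈μ / 2⌉₊ : ℝ)) ^ (1 / 4 : ℝ) ≤ 17 / 4 / x := by
    have h1 : μ / 2 ≤ (⌈μ / 2⌉₊ : ℝ) := Nat.le_ceil _
    have h2 : 162 / (⌈μ / 2⌉₊ : ℝ) ≤ (17 / 4 / x) ^ 4 := by
      rw [div_pow, hx4]
      calc 162 / (⌈μ / 2⌉₊ : ℝ) ≤ 162 / (μ / 2) := by gcongr
        _ = 324 / μ := by field_simp; ring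
        _ ≤ (17 / 4 : ℝ) ^ 4 / μ := by gcongr; norm_num
    calc (162 / (⌈μ / 2⌉₊ : ℝ)) ^ (1 / 4 : ℝ) ≤ ((17 / 4 / x) ^ 4) ^ (1 / 4 : ℝ) :=
          Real.rpow_le_rpow (by positivity) h2 (by norm_num)
      _ = 17 / 4 / x := by
          rw [← Real.rpow_natCast (17 / 4 / x) 4, ← Real.rpow_mul (by positivity)]
          have e4 : ((4 : ℕ) : ℝ) * (1 / 4) = 1 := by norm_num
          rw [e4, Real.rpow_one]
  have h28 : 28 / μ ≤ 28 / 125 / x := by
    rw [← hx4, div_le_div_iff₀ (by positivity) hx0]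
    have h3 : (125 : ℝ) ≤ x ^ 3 := by
      calc (125 : ℝ) = 5 ^ 3 := by norm_num
        _ ≤ x ^ 3 := pow_le_pow_left₀ (by norm_num) hx5 3
    have e : x ^ 4 = x ^ 3 * x := by ring
    rw [e]
    nlinarith
  have hle : X ≤ 5 / x * n.factorial := by
    calc X ≤ _ := hc
      _ ≤ 17 / 4 / x * n.factorial + 28 / 125 / x * n.factorial := by
          refine add_le_add ?_ ?_
          · gcongr
          · exact hfew.trans (by gcongr)
      _ = (17 / 4 + 28 / 125) / x * n.factorial := by ring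
      _ ≤ 5 / x * n.factorial := by gcongr; norm_num
  have h4 : (x * X) ^ 4 ≤ (5 * n.factorial) ^ 4 := by
    apply pow_le_pow_left₀ (by positivity)
    calc x * X ≤ x * (5 / x * n.factorial) := by gcongr
      _ = 5 * n.factorial := by field_simp
  calc μ * X ^ 4 = (x * X) ^ 4 := by rw [mul_pow, hx4]
    _ ≤ _ := h4
    _ = _ := by ring

open Classical in
/-- **Random heights.** -/
theorem main_count (c : ℤ) :
    L.quads * (Finset.univ.filter (fun h : Equiv.Perm (Fin n) => moment 2 (L.lift h).fPoly = c)).card ^ 4 ≤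
      3125 * n ^ 3 * n.factorial ^ 4 := by
  set X := (Finset.univ.filter (fun h : Equiv.Perm (Fin n) => moment 2 (L.lift h).fPoly = c)).card with hX
  have hXn : X ≤ n.factorial := by
    rw [hX]
    refine (Finset.card_filter_le _ _).trans (le_of_eq ?_)
    rw [Finset.card_univ, Fintype.card_perm, Fintype.card_fin]
  by_cases hsmall : n ≤ 3125
  · have h1 := quads_le L
    calc L.quads * X ^ 4 ≤ n ^ 4 * n.factorial ^ 4 := Nat.mul_le_mul h1 (Nat.pow_le_pow_left hXn 4)
      _ = n * n ^ 3 * n.factorial ^ 4 := by ring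
      _ ≤ 3125 * n ^ 3 * n.factorial ^ 4 := by gcongr
  · set μ : ℝ := ((n / 4 : ℕ) : ℝ) * L.quads / n.descFactorial 4 with hμ
    have h4 : 0 < n.descFactorial 4 := Nat.descFactorial_pos.2 (by omega)
    have h4' : (0 : ℝ) < n.descFactorial 4 := by exact_mod_cast h4
    have hlow : (L.quads : ℝ) ≤ 5 * n ^ 3 * μ := by
      rw [hμ, ← mul_div_assoc, le_div_iff₀ h4']
      have h5 : n.descFactorial 4 ≤ n ^ 4 := Nat.descFactorial_le_pow n 4
      have h6 : n ≤ 5 * (n / 4) := by omega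
      have h7 : L.quads * n.descFactorial 4 ≤ 5 * n ^ 3 * ((n / 4) * L.quads) := by
        calc L.quads * n.descFactorial 4 ≤ L.quads * n ^ 4 := Nat.mul_le_mul_left _ h5
          _ = n ^ 3 * L.quads * n := by ring
          _ ≤ n ^ 3 * L.quads * (5 * (n / 4)) := Nat.mul_le_mul_left _ h6
          _ = _ := by ring
      exact_mod_cast h7
    have hn3 : (0 : ℝ) < (n : ℝ) ^ 3 := by
      have : 0 < n := by omega
      positivity
    by_cases hμ6 : 625 < μ
    · have h := main_real L c μ hμ hμ6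
      have h8 : (L.quads : ℝ) * (X : ℝ) ^ 4 ≤ 3125 * (n : ℝ) ^ 3 * (n.factorial : ℝ) ^ 4 := by
        calc (L.quads : ℝ) * (X : ℝ) ^ 4 ≤ 5 * n ^ 3 * μ * (X : ℝ) ^ 4 := by gcongr
          _ = 5 * n ^ 3 * (μ * (X : ℝ) ^ 4) := by ring
          _ ≤ 5 * n ^ 3 * (625 * (n.factorial : ℝ) ^ 4) := by gcongr
          _ = _ := by ring
      exact_mod_cast h8
    · have h8 : (L.quads : ℝ) ≤ 3125 * (n : ℝ) ^ 3 := by
        have := not_lt.1 hμ6
        nlinarith
      have h9 : L.quads ≤ 3125 * n ^ 3 := by exact_mod_cast h8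
      exact Nat.mul_le_mul h9 (Nat.pow_le_pow_left hXn 4)

theorem sub_moment {f g : ℤ[T;T⁻¹]} (h : (T 1 - 1 : ℤ[T;T⁻¹]) ^ 3 ∣ f - g) : moment 2 f = moment 2 g := by
  have h2 := moment_of_dvd 2 _ h
  rw [m_sub] at h2
  omega

open Classical in
theorem main_poly (g : ℤ[T;T⁻¹]) :
    L.quads * (Finset.univ.filter (fun h : Equiv.Perm (Fin n) =>
      (T 1 - 1 : ℤ[T;T⁻¹]) ^ 3 ∣ (L.lift h).fPoly - g)).card ^ 4 ≤ 3125 * n ^ 3 * n.factorial ^ 4 := by
  refine le_trans ?_ (main_count L (moment 2 g))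
  refine Nat.mul_le_mul_left _ (Nat.pow_le_pow_left (Finset.card_le_card ?_) 4)
  intro h hh
  rw [Finset.mem_filter] at hh ⊢
  exact ⟨hh.1, sub_moment hh.2⟩

end Pool.Agent.V8H81.Rnd
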