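import Pool.Agent.V8H81.Rnd.GridCount

set_option autoImplicit false

/-! Random grid knots and petal knots. -/

namespace Pool.Agent.V8H81.Rnd

open Finset LaurentPolynomial Pool.Agent.H891R2.Jones Pool.Agent.R811 Pool.Agent.R811.Cross

variable {n : ℕ}

open Classical in
theorem Y_le_quads (c : Equiv.Perm (Fin n)) : Y c ≤ (grid c).quads := by
  refine le_trans (Finset.card_le_card ?_) (quads_ge c)
  intro t ht
  rw [Finset.mem_filter] at ht ⊢
  exact ⟨Finset.mem_univ _, ht.2.1, ht.2.2, (mem_W.1 ht.1).1⟩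

open Classical in
/-- the number of heights over the columns `c` for which the polynomial is `g`, up to terms of order `3` at
`A = 1` -/
noncomputable def hits (g : ℤ[T;T⁻¹]) (c : Equiv.Perm (Fin n)) : ℕ :=
  (Finset.univ.filter (fun r : Equiv.Perm (Fin n) =>
    (T 1 - 1 : ℤ[T;T⁻¹]) ^ 3 ∣ ((grid c).lift r).fPoly - g)).card

open Classical in
theorem hits_le (g : ℤ[T;T⁻¹]) (c : Equiv.Perm (Fin n)) : hits g c ≤ n.factorial := by
  unfold hits
  refine (Finset.card_filter_le _ _).trans (le_of_eq ?_)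
  rw [Finset.card_univ, Fintype.card_perm, Fintype.card_fin]

open Classical in
theorem hits_quads (g : ℤ[T;T⁻¹]) (c : Equiv.Perm (Fin n)) :
    (grid c).quads * hits g c ^ 4 ≤ 3125 * n ^ 3 * n.factorial ^ 4 := by
  unfold hits
  exact main_poly (grid c) g

open Classical in
theorem grid_sum (g : ℤ[T;T⁻¹]) : (Finset.univ.filter (fun x : Equiv.Perm (Fin n) × Equiv.Perm (Fin n) =>
    (T 1 - 1 : ℤ[T;T⁻¹]) ^ 3 ∣ ((grid x.1).lift x.2).fPoly - g)).card =
      ∑ c : Equiv.Perm (Fin n), hits g c := by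
  unfold hits
  rw [Finset.card_filter]
  simp only [Finset.card_filter]
  rw [Fintype.sum_prod_type]

open Classical in
theorem grid_count (n : ℕ) (g : ℤ[T;T⁻¹]) :
    n * (Finset.univ.filter (fun x : Equiv.Perm (Fin n) × Equiv.Perm (Fin n) =>
      (T 1 - 1 : ℤ[T;T⁻¹]) ^ 3 ∣ ((grid x.1).lift x.2).fPoly - g)).card ^ 4 ≤
      390625 * n.factorial ^ 8 := by
  rw [grid_sum]
  set X := ∑ c, hits (n := n) g c with hX
  have hXn : X ≤ n.factorial ^ 2 := by
    rw [hX]
    refine (Finset.sum_le_sum fun c _ => hits_le g c).trans (le_of_eq ?_)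
    rw [Finset.sum_const, Finset.card_univ, Fintype.card_perm, Fintype.card_fin, smul_eq_mul, sq]
  by_cases hsmall : n ≤ 390625
  · calc n * X ^ 4 ≤ 390625 * (n.factorial ^ 2) ^ 4 := Nat.mul_le_mul hsmall (Nat.pow_le_pow_left hXn 4)
      _ = _ := by ring
  have hn : 390625 < n := not_le.1 hsmall
  have hW := W_ge (n := n) (by omega)
  have hfew := few_cols (n := n)
  set B := (Finset.univ.filter (fun c : Equiv.Perm (Fin n) => 18 * Y c < (W n).card)) with hB
  set F : ℝ := (n.factorial : ℝ) with hF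
  have hF0 : 0 < F := by rw [hF]; exact_mod_cast n.factorial_pos
  have hnR : (390625 : ℝ) < n := by exact_mod_cast hn
  have hn0 : (0 : ℝ) < n := by linarith
  -- few columns
  have hBn : (n : ℝ) * B.card ≤ 6912 * F := by
    have h1 : n * B.card * n ^ 3 ≤ 6912 * n.factorial * n ^ 3 := by
      calc n * B.card * n ^ 3 = B.card * n ^ 4 := by ring
        _ ≤ B.card * (4 * (W n).card) := Nat.mul_le_mul_left _ hW
        _ = 4 * (B.card * (W n).card) := by ring
        _ ≤ 4 * (1728 * n ^ 3 * n.factorial) := Nat.mul_le_mul_left _ hfew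
        _ = _ := by ring
    have h2 : n * B.card ≤ 6912 * n.factorial :=
      Nat.le_of_mul_le_mul_right h1 (by positivity)
    rw [hF]
    exact_mod_cast h2
  -- the other columns
  set q : ℝ := (n : ℝ) ^ (1 / 4 : ℝ) with hq
  have hq0 : 0 < q := Real.rpow_pos_of_pos hn0 _
  have hq4 : q ^ 4 = n := by
    rw [hq, ← Real.rpow_natCast, ← Real.rpow_mul hn0.le]
    have e4 : (1 / 4 : ℝ) * ((4 : ℕ) : ℝ) = 1 := by norm_num
    rw [e4, Real.rpow_one]
  have hq25 : 25 ≤ q := by
    by_contra hlt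
    have : q ^ 4 < 25 ^ 4 := pow_lt_pow_left₀ (not_le.1 hlt) hq0.le (by norm_num)
    rw [hq4] at this
    linarith
  have hgood : ∀ c ∉ B, q * (hits g c : ℝ) ≤ 22 * F := by
    intro c hc
    have h1 : (W n).card ≤ 18 * (grid c).quads := by
      have : ¬ 18 * Y c < (W n).card := by
        intro h
        exact hc (by rw [hB, Finset.mem_filter]; exact ⟨Finset.mem_univ _, h⟩)
      exact (not_lt.1 this).trans (Nat.mul_le_mul_left _ (Y_le_quads c))
    have h2 : n ^ 4 ≤ 72 * (grid c).quads := by omega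
    have h3 := hits_quads g c
    have h4 : n * hits g c ^ 4 * n ^ 3 ≤ 225000 * n.factorial ^ 4 * n ^ 3 := by
      calc n * hits g c ^ 4 * n ^ 3 = n ^ 4 * hits g c ^ 4 := by ring
        _ ≤ 72 * (grid c).quads * hits g c ^ 4 := Nat.mul_le_mul_right _ h2
        _ = 72 * ((grid c).quads * hits g c ^ 4) := by ring
        _ ≤ 72 * (3125 * n ^ 3 * n.factorial ^ 4) := Nat.mul_le_mul_left _ h3
        _ = _ := by ring
    have h5 : n * hits g c ^ 4 ≤ 225000 * n.factorial ^ 4 :=
      Nat.le_of_mul_le_mul_right h4 (by positivity)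
    have h6 : (n : ℝ) * (hits g c : ℝ) ^ 4 ≤ 225000 * F ^ 4 := by
      rw [hF]
      exact_mod_cast h5
    by_contra hlt
    have h7 : (22 * F) ^ 4 < (q * (hits g c : ℝ)) ^ 4 :=
      pow_lt_pow_left₀ (not_le.1 hlt) (by positivity) (by norm_num)
    rw [mul_pow, mul_pow, hq4] at h7
    nlinarith [pow_pos hF0 4]
  have hsplit : q * (X : ℝ) ≤ q * (B.card * F) + F * (22 * F) := by
    have e1 : (X : ℝ) = ∑ c ∈ B, (hits g c : ℝ) + ∑ c ∈ Bᶜ, (hits g c : ℝ) := by
      rw [hX, Finset.sum_add_sum_compl]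
      push_cast
      rfl
    rw [e1, mul_add]
    refine add_le_add ?_ ?_
    · refine mul_le_mul_of_nonneg_left ?_ hq0.le
      calc ∑ c ∈ B, (hits g c : ℝ) ≤ ∑ _c ∈ B, F := Finset.sum_le_sum fun c _ => by
            rw [hF]; exact_mod_cast hits_le g c
        _ = B.card * F := by rw [Finset.sum_const, nsmul_eq_mul]
    · rw [Finset.mul_sum]
      calc ∑ c ∈ Bᶜ, q * (hits g c : ℝ) ≤ ∑ _c ∈ Bᶜ, 22 * F :=
            Finset.sum_le_sum fun c hc => hgood c (Finset.mem_compl.1 hc)
        _ = (Bᶜ.card : ℝ) * (22 * F) := by rw [Finset.sum_const, nsmul_eq_mul]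
        _ ≤ F * (22 * F) := by
            refine mul_le_mul_of_nonneg_right ?_ (by positivity)
            rw [hF]
            have : Bᶜ.card ≤ n.factorial := by
              refine (Finset.card_le_univ _).trans (le_of_eq ?_)
              rw [Fintype.card_perm, Fintype.card_fin]
            exact_mod_cast this
  have hqB : q * (B.card * F) ≤ 3 * F ^ 2 := by
    -- `q B ≤ 6912 F q / n = 6912 F / q³ ≤ F`
    have h1 : q * B.card * q ^ 3 ≤ 6912 * F := by
      calc q * (B.card : ℝ) * q ^ 3 = q ^ 4 * (B.card : ℝ) := by ring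
        _ = (n : ℝ) * (B.card : ℝ) := by rw [hq4]
        _ ≤ 6912 * F := hBn
    have h2 : (15625 : ℝ) ≤ q ^ 3 := by
      calc (15625 : ℝ) = 25 ^ 3 := by norm_num
        _ ≤ q ^ 3 := pow_le_pow_left₀ (by norm_num) hq25 3
    have h3 : q * B.card ≤ 3 * F := by
      by_contra hlt
      have h4 := not_le.1 hlt
      nlinarith
    calc q * (B.card * F) = q * B.card * F := by ring
      _ ≤ 3 * F * F := mul_le_mul_of_nonneg_right h3 hF0.le
      _ = 3 * F ^ 2 := by ring
  have hfin : q * (X : ℝ) ≤ 25 * F ^ 2 := by nlinarith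
  have hpow : (q * (X : ℝ)) ^ 4 ≤ (25 * F ^ 2) ^ 4 := pow_le_pow_left₀ (by positivity) hfin 4
  rw [mul_pow, hq4] at hpow
  have hgoal : (n : ℝ) * (X : ℝ) ^ 4 ≤ 390625 * (n.factorial : ℝ) ^ 8 := by
    calc (n : ℝ) * (X : ℝ) ^ 4 ≤ (25 * F ^ 2) ^ 4 := hpow
      _ = _ := by rw [hF]; ring
  exact_mod_cast hgoal

/-! ### petal diagrams -/

/-- The columns `t m` modulo `2 m + 1`: with these columns any two strands which are not adjacent cross exactly
once. -/
noncomputable def star (m : ℕ) : Equiv.Perm (Fin (2 * m + 1)) :=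
  Equiv.ofBijective (fun t => ⟨(t * m) % (2 * m + 1), Nat.mod_lt _ (by omega)⟩) (by
    rw [Finite.injective_iff_bijective.symm]
    intro t s h
    have h1 : (t : ℕ) * m ≡ s * m [MOD (2 * m + 1)] := congrArg Fin.val h
    have h2 : (t : ℕ) ≡ s [MOD (2 * m + 1)] := by
      refine Nat.ModEq.cancel_right_of_coprime ?_ h1
      simp
    exact Fin.ext (Nat.ModEq.eq_of_lt_of_lt h2 t.2 s.2))

theorem star_val (m : ℕ) (t : Fin (2 * m + 1)) : ((star m t : Fin (2 * m + 1)) : ℕ) = (t * m) % (2 * m + 1) := rfl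

theorem star_step (m : ℕ) (a : Fin (2 * m + 1)) :
    ((star m a : Fin (2 * m + 1)) : ℕ) = (star m (prv a) : Fin (2 * m + 1)) + m ∨
    ((star m a : Fin (2 * m + 1)) : ℕ) + (m + 1) = (star m (prv a) : Fin (2 * m + 1)) := by
  have h1 : (((star m (prv a) : Fin (2 * m + 1)) : ℕ) + m) % (2 * m + 1) = (star m a : Fin (2 * m + 1)) := by
    rw [star_val, star_val, Nat.mod_add_mod]
    have h2 := nxt_val (prv a)
    rw [nxt_prv] at h2
    split_ifs at h2 with h3
    · rw [h2]
      have e : ((prv a : Fin (2 * m + 1)) : ℕ) * m + m = m * (2 * m + 1) := by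
        have : ((prv a : Fin (2 * m + 1)) : ℕ) = 2 * m := by omega
        rw [this]
        ring
      rw [e]
      simp
    · rw [h2]
      congr 1
      ring
  have h2 := (star m (prv a)).2
  by_cases h3 : ((star m (prv a) : Fin (2 * m + 1)) : ℕ) + m < 2 * m + 1
  · rw [Nat.mod_eq_of_lt h3] at h1
    exact Or.inl h1.symm
  · rw [Nat.mod_eq_sub_mod (not_lt.1 h3), Nat.mod_eq_of_lt (by omega)] at h1
    exact Or.inr (by omega)

theorem star_LC (m : ℕ) {a b : Fin (2 * m + 1)} (h1 : a ≠ b) (h2 : prv a ≠ b) (h3 : prv b ≠ a) :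
    LC (star m) a b := by
  have hv : ∀ u v : Fin (2 * m + 1), u ≠ v → ((star m u : Fin (2 * m + 1)) : ℕ) ≠ star m v := by
    intro u v huv he
    exact huv ((star m).injective (Fin.ext he))
  have g1 := star_step m a
  have g2 := star_step m b
  have g3 := hv a b h1
  have g4 := hv _ _ h2
  have g5 := hv _ _ h3
  have g6 := hv (prv a) (prv b) (fun e => h1 (prv_inj e))
  have g7 := (star m a).2
  have g8 := (star m b).2
  have g9 := (star m (prv a)).2
  have g0 := (star m (prv b)).2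
  unfold LC Linked Shadow.Between
  rcases g1 with g1 | g1 <;> rcases g2 with g2 | g2 <;> omega

theorem W_le_star (m : ℕ) : (W (2 * m + 1)).card ≤ (grid (star m)).quads := by
  classical
  refine le_trans (Finset.card_le_card ?_) (quads_ge (star m))
  intro t ht
  rw [Finset.mem_filter]
  obtain ⟨h1, h2, h3⟩ := mem_W.1 ht
  exact ⟨Finset.mem_univ _, star_LC m (h2 0 1 (by decide)) (h3 0 1) (h3 1 0),
    star_LC m (h2 2 3 (by decide)) (h3 2 3) (h3 3 2), h1⟩

open Classical in
theorem petal_count (m : ℕ) (g : ℤ[T;T⁻¹]) :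
    (2 * m + 1) * (Finset.univ.filter (fun r : Equiv.Perm (Fin (2 * m + 1)) =>
      (T 1 - 1 : ℤ[T;T⁻¹]) ^ 3 ∣ ((grid (star m)).lift r).fPoly - g)).card ^ 4 ≤
      12500 * (2 * m + 1).factorial ^ 4 := by
  have e : (Finset.univ.filter (fun r : Equiv.Perm (Fin (2 * m + 1)) =>
      (T 1 - 1 : ℤ[T;T⁻¹]) ^ 3 ∣ ((grid (star m)).lift r).fPoly - g)).card = hits g (star m) := rfl
  rw [e]
  by_cases hsmall : 2 * m + 1 ≤ 12500
  · exact Nat.mul_le_mul hsmall (Nat.pow_le_pow_left (hits_le g (star m)) 4)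
  · have h1 := W_ge (n := 2 * m + 1) (by omega)
    have h2 := W_le_star m
    have h3 := hits_quads g (star m)
    have h4 : (2 * m + 1) * hits g (star m) ^ 4 * (2 * m + 1) ^ 3 ≤
        12500 * (2 * m + 1).factorial ^ 4 * (2 * m + 1) ^ 3 := by
      calc (2 * m + 1) * hits g (star m) ^ 4 * (2 * m + 1) ^ 3 =
            (2 * m + 1) ^ 4 * hits g (star m) ^ 4 := by ring
        _ ≤ 4 * (grid (star m)).quads * hits g (star m) ^ 4 :=
            Nat.mul_le_mul_right _ (h1.trans (Nat.mul_le_mul_left _ h2))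
        _ = 4 * ((grid (star m)).quads * hits g (star m) ^ 4) := by ring
        _ ≤ 4 * (3125 * (2 * m + 1) ^ 3 * (2 * m + 1).factorial ^ 4) := Nat.mul_le_mul_left _ h3
        _ = _ := by ring
    exact Nat.le_of_mul_le_mul_right h4 (by positivity)

end Pool.Agent.V8H81.Rnd
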