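import Pool.Agent.V8H81.Rnd.Chords
import Pool.Agent.V8H81.Rnd.General

set_option autoImplicit false

/-! Random heights over a closed curve many of whose strands cross exactly once. -/

namespace Pool.Agent.V8H81.Rnd

open Finset LaurentPolynomial Pool.Agent.H891R2.Jones Pool.Agent.R811 Pool.Agent.R811.Cross

variable {n N : ℕ} (L : Layered n N)

open Classical in
/-- the pairs of strands which cross exactly once -/
noncomputable def Layered.pairs : Finset (Fin n × Fin n) :=
  Finset.univ.filter (fun x => x.1 < x.2 ∧ L.Once x.1 x.2)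

theorem once_symm {a b : Fin n} (h : L.Once a b) : L.Once b a := by
  obtain ⟨i, hi, hu⟩ := h
  exact ⟨i, Or.symm hi, fun j hj => hu j (Or.symm hj)⟩

/-- the eight quadruples of a crossing pair of chords -/
def oct (z : (Fin n × Fin n) × (Fin n × Fin n)) (e : Bool × Bool × Bool) : Fin 4 → Fin n :=
  let x := if e.1 then z.2 else z.1
  let y := if e.1 then z.1 else z.2
  ![if e.2.1 then x.2 else x.1, if e.2.1 then x.1 else x.2, if e.2.2 then y.2 else y.1,
    if e.2.2 then y.1 else y.2]

open Classical in
theorem xing_le_quads : 8 * (xing L.pairs).card ≤ L.quads := by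
  have h : (xing L.pairs ×ˢ (Finset.univ : Finset (Bool × Bool × Bool))).card ≤ L.quads := by
    unfold Layered.quads
    refine Finset.card_le_card_of_injOn (fun w => oct w.1 w.2) ?_ ?_
    · rintro ⟨⟨⟨a, b⟩, ⟨c, d⟩⟩, ⟨e1, e2, e3⟩⟩ hw
      rw [Finset.mem_coe, Finset.mem_product, mem_xing] at hw
      obtain ⟨⟨⟨h1, h2⟩, h3, h4, h5⟩, _⟩ := hw
      simp only [Layered.pairs, Finset.mem_filter, Finset.mem_univ, true_and] at h1 h2
      rw [Finset.mem_coe, Finset.mem_filter]
      refine ⟨Finset.mem_univ _, ?_⟩
      have h3' : (a : ℕ) < c := h3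
      have h4' : (c : ℕ) < b := h4
      have h5' : (b : ℕ) < d := h5
      unfold Layered.Good
      cases e1 <;> cases e2 <;> cases e3 <;>
        simp only [oct, Bool.false_eq_true, if_false, if_true, Matrix.cons_val_zero, Matrix.cons_val_one,
          Matrix.cons_val] <;>
        refine ⟨?_, ?_, ?_⟩ <;>
        first
          | exact h1.2
          | exact h2.2
          | exact once_symm L h1.2
          | exact once_symm L h2.2
          | (unfold Linked Shadow.Between; omega)
    · rintro ⟨⟨⟨a, b⟩, ⟨c, d⟩⟩, ⟨e1, e2, e3⟩⟩ hw ⟨⟨⟨a', b'⟩, ⟨c', d'⟩⟩, ⟨e1', e2', e3'⟩⟩ hw' he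
      rw [Finset.mem_coe, Finset.mem_product, mem_xing] at hw hw'
      obtain ⟨⟨_, h3, h4, h5⟩, _⟩ := hw
      obtain ⟨⟨_, h3', h4', h5'⟩, _⟩ := hw'
      have g0 := congrFun he 0
      have g1 := congrFun he 1
      have g2 := congrFun he 2
      have g3 := congrFun he 3
      dsimp only at h3 h4 h5 h3' h4' h5'
      cases e1 <;> cases e2 <;> cases e3 <;> cases e1' <;> cases e2' <;> cases e3' <;>
        simp only [oct, Bool.false_eq_true, if_false, if_true, Matrix.cons_val_zero, Matrix.cons_val_one,
          Matrix.cons_val] at g0 g1 g2 g3 <;>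
        subst g0 g1 g2 g3 <;>
        first
          | rfl
          | (exfalso; exact absurd (h3.trans (h4.trans h5)) (not_lt.2 (by order)))
  rw [Finset.card_product, Finset.card_univ] at h
  have e : Fintype.card (Bool × Bool × Bool) = 8 := by decide
  rw [e] at h
  omega

open Classical in
/-- **Random heights.** -/
theorem pairs_poly (g : ℤ[T;T⁻¹]) :
    L.pairs.card ^ 3 * (Finset.univ.filter (fun h : Equiv.Perm (Fin n) =>
      (T 1 - 1 : ℤ[T;T⁻¹]) ^ 3 ∣ (L.lift h).fPoly - g)).card ^ 4 ≤ 84375 * n ^ 5 * n.factorial ^ 4 := by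
  set X := (Finset.univ.filter (fun h : Equiv.Perm (Fin n) =>
      (T 1 - 1 : ℤ[T;T⁻¹]) ^ 3 ∣ (L.lift h).fPoly - g)).card with hX
  have hXn : X ≤ n.factorial := by
    rw [hX]
    refine (Finset.card_filter_le _ _).trans (le_of_eq ?_)
    rw [Finset.card_univ, Fintype.card_perm, Fintype.card_fin]
  have hlt : ∀ x ∈ L.pairs, x.1 < x.2 := by
    intro x hx
    exact (Finset.mem_filter.1 hx).2.1
  rcases Nat.lt_or_ge L.pairs.card (3 * n) with h | h
  · have h1 : L.pairs.card ^ 3 ≤ 84375 * n ^ 5 := by
      have hn : 1 ≤ n := by omega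
      calc L.pairs.card ^ 3 ≤ (3 * n) ^ 3 := Nat.pow_le_pow_left h.le 3
        _ = 27 * n ^ 3 := by ring
        _ ≤ 84375 * n ^ 5 := Nat.mul_le_mul (by norm_num) (Nat.pow_le_pow_right hn (by norm_num))
    exact Nat.mul_le_mul h1 (Nat.pow_le_pow_left hXn 4)
  · have h1 := xing_cube L.pairs hlt h
    have h2 := xing_le_quads L
    have h3 := main_poly L g
    rw [← hX] at h3
    calc L.pairs.card ^ 3 * X ^ 4 ≤ 216 * n ^ 2 * (xing L.pairs).card * X ^ 4 := Nat.mul_le_mul_right _ h1
      _ = 27 * n ^ 2 * (8 * (xing L.pairs).card * X ^ 4) := by ring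
      _ ≤ 27 * n ^ 2 * (L.quads * X ^ 4) := by gcongr
      _ ≤ 27 * n ^ 2 * (3125 * n ^ 3 * n.factorial ^ 4) := Nat.mul_le_mul_left _ h3
      _ = _ := by ring

/-- if any two strands cross at most once, then the number of the pairs which cross exactly once is the number
of the double points -/
theorem card_pairs (hL : Function.Injective (fun i => s(L.strand (L.p i), L.strand (L.q i)))) :
    L.pairs.card = N := by
  classical
  have h : (Finset.univ : Finset (Fin N)).card = L.pairs.card := by
    refine Finset.card_bij (fun i _ => (min (L.strand (L.p i)) (L.strand (L.q i)),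
      max (L.strand (L.p i)) (L.strand (L.q i)))) ?_ ?_ ?_
    · intro i _
      unfold Layered.pairs
      rw [Finset.mem_filter]
      refine ⟨Finset.mem_univ _, ?_, ?_⟩
      · exact min_lt_max.2 (L.ne i)
      · refine ⟨i, ?_, ?_⟩
        · rcases le_total (L.strand (L.p i)) (L.strand (L.q i)) with h | h
          · left
            simp [h]
          · right
            simp [h]
        · intro j hj
          apply hL
          have hs : s(min (L.strand (L.p i)) (L.strand (L.q i)), max (L.strand (L.p i)) (L.strand (L.q i))) =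
              s(L.strand (L.p i), L.strand (L.q i)) := by
            rcases le_total (L.strand (L.p i)) (L.strand (L.q i)) with h | h
            · simp [h]
            · simp [h, Sym2.eq_swap]
          show s(L.strand (L.p j), L.strand (L.q j)) = s(L.strand (L.p i), L.strand (L.q i))
          rw [← hs]
          rcases hj with ⟨h1, h2⟩ | ⟨h1, h2⟩
          · rw [h1, h2]
          · rw [h1, h2, Sym2.eq_swap]
    · intro i _ j _ hij
      apply hL
      have h1 := congrArg Prod.fst hij
      have h2 := congrArg Prod.snd hij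
      dsimp only at h1 h2
      show s(L.strand (L.p i), L.strand (L.q i)) = s(L.strand (L.p j), L.strand (L.q j))
      have hs : ∀ a b : Fin n, s(min a b, max a b) = s(a, b) := by
        intro a b
        rcases le_total a b with h | h
        · simp [h]
        · simp [h, Sym2.eq_swap]
      rw [← hs, h1, h2, hs]
    · rintro ⟨a, b⟩ hab
      unfold Layered.pairs at hab
      rw [Finset.mem_filter] at hab
      obtain ⟨_, h1, i, hi, _⟩ := hab
      dsimp only at h1 hi
      refine ⟨i, Finset.mem_univ _, ?_⟩
      rcases hi with ⟨h2, h3⟩ | ⟨h2, h3⟩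
      · rw [h2, h3, min_eq_left h1.le, max_eq_right h1.le]
      · rw [h2, h3, min_eq_right h1.le, max_eq_left h1.le]
  rw [← h, Finset.card_univ, Fintype.card_fin]

end Pool.Agent.V8H81.Rnd
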