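import Pool.Agent.V8H81.Rnd.Layered

set_option autoImplicit false

/-! Blocks of four heights. -/

namespace Pool.Agent.V8H81.Rnd

open Finset LaurentPolynomial Pool.Agent.H891R2.Jones Pool.Agent.H832R3.VJ Pool.Agent.R811
open Pool.Agent.R811.Cross hiding sg

/-- the pairs `{a, b}` and `{c, d}` are linked: exactly one of the numbers `c`, `d` is between `a` and
`b`, the other one is smaller or larger than both -/
def Linked (a b c d : ℕ) : Prop :=
  (Shadow.Between a b c ∧ (d < min a b ∨ max a b < d)) ∨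
    ((c < min a b ∨ max a b < c) ∧ Shadow.Between a b d)

instance (a b c d : ℕ) : Decidable (Linked a b c d) := by
  unfold Linked Shadow.Between; infer_instance

/-- the heights `4 g, …, 4 g + 3` -/
def block {n : ℕ} (g : Fin (n / 4)) (j : Fin 4) : Fin n := ⟨4 * g + j, by
  have := g.2; have := j.2; omega⟩

namespace Layered

variable {n N : ℕ} (L : Layered n N)

/-- the strands `a` and `b` cross exactly once -/
def Once (a b : Fin n) : Prop :=
  ∃! i, (L.strand (L.p i) = a ∧ L.strand (L.q i) = b) ∨ (L.strand (L.p i) = b ∧ L.strand (L.q i) = a)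

/-- the strands `t 0`, `t 1` cross exactly once, the strands `t 2`, `t 3` cross exactly once, and these
pairs are linked -/
def Good (t : Fin 4 → Fin n) : Prop :=
  L.Once (t 0) (t 1) ∧ L.Once (t 2) (t 3) ∧ Linked (t 0) (t 1) (t 2) (t 3)

open Classical in
/-- the number of the good blocks of heights -/
noncomputable def nu (h : Equiv.Perm (Fin n)) : ℕ :=
  (Finset.univ.filter (fun g : Fin (n / 4) => L.Good (fun j => h.symm (block g j)))).card

theorem strand_lt {x y : Fin (2 * N)} (hxy : L.strand x ≠ L.strand y) :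
    L.strand x < L.strand y ↔ x < y := by
  constructor
  · intro h
    by_contra hc
    exact absurd (L.mono (not_lt.1 hc)) (not_le.2 h)
  · intro h
    exact lt_of_le_of_ne (L.mono h.le) hxy

theorem between_iff {x y z : Fin (2 * N)} (h1 : L.strand z ≠ L.strand x) (h2 : L.strand z ≠ L.strand y) :
    Shadow.Between x y z ↔ Shadow.Between (L.strand x) (L.strand y) (L.strand z) := by
  have e1 := L.strand_lt h1
  have e2 := L.strand_lt h2
  have e3 := L.strand_lt h1.symm
  have e4 := L.strand_lt h2.symm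
  rw [Fin.lt_def, Fin.lt_def] at e1 e2 e3 e4
  unfold Shadow.Between
  omega

theorem interlaced_of_linked {i j : Fin N} {a b c d : Fin n}
    (hi : (L.strand (L.p i) = a ∧ L.strand (L.q i) = b) ∨ (L.strand (L.p i) = b ∧ L.strand (L.q i) = a))
    (hj : (L.strand (L.p j) = c ∧ L.strand (L.q j) = d) ∨ (L.strand (L.p j) = d ∧ L.strand (L.q j) = c))
    (h : Linked a b c d) : L.Interlaced i j := by
  have key : ∀ x y z w : Fin n, L.strand (L.p i) = x → L.strand (L.q i) = y → L.strand (L.p j) = z →
      L.strand (L.q j) = w → Linked x y z w → L.Interlaced i j := by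
    rintro x y z w rfl rfl rfl rfl hl
    have hne : L.strand (L.p j) ≠ L.strand (L.p i) ∧ L.strand (L.p j) ≠ L.strand (L.q i) ∧
        L.strand (L.q j) ≠ L.strand (L.p i) ∧ L.strand (L.q j) ≠ L.strand (L.q i) := by
      refine ⟨fun e => ?_, fun e => ?_, fun e => ?_, fun e => ?_⟩ <;>
        · have e' := congrArg Fin.val e
          unfold Linked Shadow.Between at hl
          omega
    unfold Shadow.Interlaced
    rw [L.between_iff hne.1 hne.2.1, L.between_iff hne.2.2.1 hne.2.2.2]
    unfold Linked Shadow.Between at hl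
    unfold Shadow.Between
    omega
  have hs1 : Linked b a c d := by
    unfold Linked Shadow.Between at h ⊢; omega
  have hs2 : Linked a b d c := by
    unfold Linked Shadow.Between at h ⊢; omega
  have hs3 : Linked b a d c := by
    unfold Linked Shadow.Between at h ⊢; omega
  rcases hi with ⟨h1, h2⟩ | ⟨h1, h2⟩ <;> rcases hj with ⟨h3, h4⟩ | ⟨h3, h4⟩
  · exact key _ _ _ _ h1 h2 h3 h4 h
  · exact key _ _ _ _ h1 h2 h3 h4 hs2
  · exact key _ _ _ _ h1 h2 h3 h4 hs1
  · exact key _ _ _ _ h1 h2 h3 h4 hs3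

/-- the crossing of the strands at the heights `2 k` and `2 k + 1` -/
theorem only_of_once (h : Equiv.Perm (Fin n)) {k : ℕ} {x y : Fin n} (hx : (x : ℕ) = 2 * k)
    (hy : (y : ℕ) = 2 * k + 1) (ho : L.Once (h.symm x) (h.symm y)) :
    ∃ i, L.Only h k i ∧ ((L.strand (L.p i) = h.symm x ∧ L.strand (L.q i) = h.symm y) ∨
      (L.strand (L.p i) = h.symm y ∧ L.strand (L.q i) = h.symm x)) := by
  obtain ⟨i, hi, hu⟩ := ho
  refine ⟨i, ⟨?_, ?_⟩, hi⟩
  · rcases hi with ⟨h1, h2⟩ | ⟨h1, h2⟩ <;> rw [h1, h2] <;> simp only [Equiv.apply_symm_apply] <;>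
      omega
  · rintro j ⟨h1, h2⟩
    apply hu
    have hne : (h (L.strand (L.p j)) : ℕ) ≠ (h (L.strand (L.q j)) : ℕ) := by
      intro e
      exact L.ne j (h.injective (Fin.ext e))
    have e1 : ∀ z : Fin n, (h z : ℕ) = x → z = h.symm x := by
      intro z hz
      rw [Equiv.eq_symm_apply]
      exact Fin.ext hz
    have e2 : ∀ z : Fin n, (h z : ℕ) = y → z = h.symm y := by
      intro z hz
      rw [Equiv.eq_symm_apply]
      exact Fin.ext hz
    by_cases hc : (h (L.strand (L.p j)) : ℕ) = x
    · left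
      exact ⟨e1 _ hc, e2 _ (by omega)⟩
    · right
      exact ⟨e2 _ (by omega), e1 _ (by omega)⟩

theorem pairs_le (n : ℕ) : 2 * (2 * (n / 4)) ≤ n := by omega

/-- Anticoncentration for the exchanges of the heights `2 k` and `2 k + 1`, in terms of the good blocks. -/
theorem cube_nu (h : Equiv.Perm (Fin n)) (c : ℤ) :
    (L.nu h : ℤ) * ((Finset.univ.filter (fun ε : Fin (2 * (n / 4)) → Bool =>
      moment 2 (L.lift (h.trans (flE ε (pairs_le n)))).fPoly = c)).card : ℤ) ^ 4 ≤
        162 * 16 ^ (2 * (n / 4)) := by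
  classical
  set A : Finset (Fin (n / 4)) :=
    Finset.univ.filter (fun g : Fin (n / 4) => L.Good (fun j => h.symm (block g j))) with hA
  have hcard : L.nu h = A.card := rfl
  rw [hcard]
  set e : Fin A.card ≃ A := (A.equivFin).symm with he
  have hg : ∀ k, L.Good (fun j => h.symm (block (e k : Fin (n / 4)) j)) := by
    intro k
    exact (Finset.mem_filter.1 (e k).2).2
  set w : Fin A.card → Fin (2 * (n / 4)) := fun k => ⟨2 * (e k : Fin (n / 4)), by
    have := (e k : Fin (n / 4)).2; omega⟩ with hw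
  set u : Fin A.card → Fin (2 * (n / 4)) := fun k => ⟨2 * (e k : Fin (n / 4)) + 1, by
    have := (e k : Fin (n / 4)).2; omega⟩ with hu
  have hinj0 : ∀ k l, ((e k : Fin (n / 4)) : ℕ) = (e l : Fin (n / 4)) → k = l := by
    intro k l hkl
    exact e.injective (Subtype.ext (Fin.ext hkl))
  have hinj : Function.Injective (Sum.elim u w) := by
    rintro (k | k) (l | l) hkl
    · have := congrArg Fin.val hkl
      simp only [Sum.elim_inl, hu] at this
      rw [hinj0 k l (by omega)]
    · have := congrArg Fin.val hkl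
      simp only [Sum.elim_inl, Sum.elim_inr, hu, hw] at this
      omega
    · have := congrArg Fin.val hkl
      simp only [Sum.elim_inl, Sum.elim_inr, hu, hw] at this
      omega
    · have := congrArg Fin.val hkl
      simp only [Sum.elim_inr, hw] at this
      rw [hinj0 k l (by omega)]
  have h01 : ∀ k, ∃ i, L.Only h (w k) i ∧ ((L.strand (L.p i) = h.symm (block (e k : Fin (n / 4)) 0) ∧
      L.strand (L.q i) = h.symm (block (e k : Fin (n / 4)) 1)) ∨
      (L.strand (L.p i) = h.symm (block (e k : Fin (n / 4)) 1) ∧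
        L.strand (L.q i) = h.symm (block (e k : Fin (n / 4)) 0))) := by
    intro k
    refine L.only_of_once h ?_ ?_ (hg k).1
    · simp only [block, hw]
      simp
      omega
    · simp only [block, hw]
      simp
      omega
  have h23 : ∀ k, ∃ i, L.Only h (u k) i ∧ ((L.strand (L.p i) = h.symm (block (e k : Fin (n / 4)) 2) ∧
      L.strand (L.q i) = h.symm (block (e k : Fin (n / 4)) 3)) ∨
      (L.strand (L.p i) = h.symm (block (e k : Fin (n / 4)) 3) ∧
        L.strand (L.q i) = h.symm (block (e k : Fin (n / 4)) 2))) := by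
    intro k
    refine L.only_of_once h ?_ ?_ (hg k).2.1
    · simp only [block, hu]
      simp
      omega
    · simp only [block, hu]
      simp
      omega
  choose iw hiw hiw' using h01
  choose iu hiu hiu' using h23
  exact L.cube h (pairs_le n) u w hinj iu iw hiu hiw
    (fun k => L.interlaced_of_linked (hiw' k) (hiu' k) (hg k).2.2) c

open Classical in
/-- The number of the permutations of the heights with a given value of the invariant. -/
theorem count_le (c : ℤ) (ν₀ : ℕ) (hν : 0 < ν₀) :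
    ((Finset.univ.filter (fun h : Equiv.Perm (Fin n) => moment 2 (L.lift h).fPoly = c)).card : ℝ) ≤
      (162 / ν₀ : ℝ) ^ (1 / 4 : ℝ) * (n.factorial : ℝ) +
        ((Finset.univ.filter (fun h : Equiv.Perm (Fin n) => L.nu h < ν₀)).card : ℝ) := by
  obtain ⟨m, hm⟩ : ∃ m, m = 2 * (n / 4) := ⟨_, rfl⟩
  have hmn : 2 * m ≤ n := by rw [hm]; exact pairs_le n
  set A : Equiv.Perm (Fin n) → ℝ := fun h => ((Finset.univ.filter (fun ε : Fin m → Bool =>
      moment 2 (L.lift (h.trans (flE ε hmn))).fPoly = c)).card : ℝ) with hA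
  have h1 : ∑ h, A h = (2 : ℝ) ^ m *
      ((Finset.univ.filter (fun h : Equiv.Perm (Fin n) => moment 2 (L.lift h).fPoly = c)).card : ℝ) := by
    have e1 : ∀ h, A h = ∑ ε : Fin m → Bool,
        if moment 2 (L.lift (h.trans (flE ε hmn))).fPoly = c then (1 : ℝ) else 0 := by
      intro h
      simp only [hA]
      rw [Finset.card_filter]
      push_cast
      rfl
    simp only [e1]
    rw [Finset.sum_comm]
    have e2 : ∀ ε : Fin m → Bool, ∑ h : Equiv.Perm (Fin n),
        (if moment 2 (L.lift (h.trans (flE ε hmn))).fPoly = c then (1 : ℝ) else 0) =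
        ∑ h : Equiv.Perm (Fin n), (if moment 2 (L.lift h).fPoly = c then (1 : ℝ) else 0) := by
      intro ε
      have := Equiv.sum_comp (Equiv.mulLeft (flE ε hmn))
        (fun h : Equiv.Perm (Fin n) => if moment 2 (L.lift h).fPoly = c then (1 : ℝ) else 0)
      rw [← this]
      rfl
    rw [Finset.sum_congr rfl (fun ε _ => e2 ε), Finset.sum_const, Finset.card_univ]
    rw [Fintype.card_fun, Fintype.card_bool, Fintype.card_fin, nsmul_eq_mul, Finset.card_filter]
    push_cast
    rfl
  have hpow : (16 : ℝ) ^ m = ((2 : ℝ) ^ m) ^ 4 := by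
    rw [← pow_mul, mul_comm m 4, pow_mul (2 : ℝ) 4 m]
    norm_num
  have h2 : ∀ h, A h ≤ (2 : ℝ) ^ m * ((162 / ν₀ : ℝ) ^ (1 / 4 : ℝ) + if L.nu h < ν₀ then 1 else 0) := by
    intro h
    have hA0 : 0 ≤ A h := by simp only [hA]; positivity
    by_cases hlt : L.nu h < ν₀
    · rw [if_pos hlt]
      have h3 : A h ≤ (2 : ℝ) ^ m := by
        simp only [hA]
        calc _ ≤ ((Finset.univ : Finset (Fin m → Bool)).card : ℝ) := by
              exact_mod_cast Finset.card_filter_le _ _
          _ = (2 : ℝ) ^ m := by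
              rw [Finset.card_univ, Fintype.card_fun, Fintype.card_bool, Fintype.card_fin]
              push_cast
              rfl
      have h4 : (0 : ℝ) ≤ (162 / ν₀ : ℝ) ^ (1 / 4 : ℝ) := by positivity
      have h5 : (0 : ℝ) < (2 : ℝ) ^ m := by positivity
      nlinarith
    · rw [if_neg hlt, add_zero]
      have h3 : (L.nu h : ℤ) * ((Finset.univ.filter (fun ε : Fin m → Bool =>
          moment 2 (L.lift (h.trans (flE ε hmn))).fPoly = c)).card : ℤ) ^ 4 ≤ 162 * 16 ^ m := by
        subst hm
        exact L.cube_nu h c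
      have h4 : (L.nu h : ℝ) * (A h) ^ 4 ≤ 162 * ((2 : ℝ) ^ m) ^ 4 := by
        rw [← hpow]
        simp only [hA]
        exact_mod_cast h3
      have hν' : (0 : ℝ) < ν₀ := by exact_mod_cast hν
      have h5 : (ν₀ : ℝ) ≤ L.nu h := by exact_mod_cast not_lt.1 hlt
      have h6 : (A h) ^ 4 ≤ (162 / ν₀) * ((2 : ℝ) ^ m) ^ 4 := by
        rw [div_mul_eq_mul_div, le_div_iff₀ hν']
        calc (A h) ^ 4 * ν₀ ≤ (A h) ^ 4 * L.nu h := by gcongr
          _ ≤ _ := by linarith
      have h7 : (2 : ℝ) ^ m * (162 / ν₀ : ℝ) ^ (1 / 4 : ℝ) =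
          ((162 / ν₀) * ((2 : ℝ) ^ m) ^ 4) ^ (1 / 4 : ℝ) := by
        rw [Real.mul_rpow (by positivity) (by positivity), ← Real.rpow_natCast ((2 : ℝ) ^ m) 4,
          ← Real.rpow_mul (by positivity)]
        have e4 : ((4 : ℕ) : ℝ) * (1 / 4) = 1 := by norm_num
        rw [e4, Real.rpow_one]
        ring
      rw [h7]
      have h8 : A h = ((A h) ^ 4) ^ (1 / 4 : ℝ) := by
        rw [← Real.rpow_natCast (A h) 4, ← Real.rpow_mul hA0]
        have e4 : ((4 : ℕ) : ℝ) * (1 / 4) = 1 := by norm_num
        rw [e4, Real.rpow_one]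
      rw [h8]
      exact Real.rpow_le_rpow (pow_nonneg hA0 4) h6 (by norm_num)
  have h3 : ∑ h, A h ≤ (2 : ℝ) ^ m * ((162 / ν₀ : ℝ) ^ (1 / 4 : ℝ) * (n.factorial : ℝ) +
        ((Finset.univ.filter (fun h : Equiv.Perm (Fin n) => L.nu h < ν₀)).card : ℝ)) := by
    refine (Finset.sum_le_sum fun h _ => h2 h).trans (le_of_eq ?_)
    rw [← Finset.mul_sum, Finset.sum_add_distrib, Finset.sum_const, Finset.card_univ,
      Fintype.card_perm, Fintype.card_fin, nsmul_eq_mul, Finset.card_filter]
    push_cast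
    ring
  rw [h1] at h3
  exact le_of_mul_le_mul_left h3 (by positivity)

end Layered

end Pool.Agent.V8H81.Rnd
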