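import Mathlib

set_option autoImplicit false

/-! Crossing pairs of chords of points on a line. -/

namespace Pool.Agent.V8H81.Rnd

open Finset

variable {n : ℕ}

/-- the pairs of chords of `E` which cross -/
def xing (E : Finset (Fin n × Fin n)) : Finset ((Fin n × Fin n) × (Fin n × Fin n)) :=
  (E ×ˢ E).filter (fun z => z.1.1 < z.2.1 ∧ z.2.1 < z.1.2 ∧ z.1.2 < z.2.2)

theorem mem_xing {E : Finset (Fin n × Fin n)} {z : (Fin n × Fin n) × (Fin n × Fin n)} :
    z ∈ xing E ↔ (z.1 ∈ E ∧ z.2 ∈ E) ∧ z.1.1 < z.2.1 ∧ z.2.1 < z.1.2 ∧ z.1.2 < z.2.2 := by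
  unfold xing
  rw [Finset.mem_filter, Finset.mem_product]

open Classical in
/-- a set of chords with endpoints in `S` has at most `2 |S|` elements more than crossing pairs -/
theorem card_le_xing (S : Finset (Fin n)) (E : Finset (Fin n × Fin n)) (hE : ∀ x ∈ E, x.1 < x.2)
    (hS : ∀ x ∈ E, x.1 ∈ S ∧ x.2 ∈ S) : E.card ≤ 2 * S.card + (xing E).card := by
  set E1 := E.filter (fun x => ∃ y ∈ E, y.1 = x.1 ∧ x.2 < y.2) with hE1
  set E2 := E1.filter (fun x => ∃ y ∈ E1, y.2 = x.2 ∧ y.1 < x.1) with hE2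
  have h1 : (E.filter (fun x => ¬ ∃ y ∈ E, y.1 = x.1 ∧ x.2 < y.2)).card ≤ S.card := by
    refine Finset.card_le_card_of_injOn (fun x => x.1) ?_ ?_
    · intro x hx
      rw [Finset.mem_coe, Finset.mem_filter] at hx
      exact (hS x hx.1).1
    · intro x hx y hy hxy
      rw [Finset.mem_coe, Finset.mem_filter] at hx hy
      have hxy' : x.1 = y.1 := hxy
      rcases lt_trichotomy x.2 y.2 with h | h | h
      · exact absurd ⟨y, hy.1, hxy'.symm, h⟩ hx.2
      · exact Prod.ext hxy' h
      · exact absurd ⟨x, hx.1, hxy', h⟩ hy.2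
  have h2 : (E1.filter (fun x => ¬ ∃ y ∈ E1, y.2 = x.2 ∧ y.1 < x.1)).card ≤ S.card := by
    refine Finset.card_le_card_of_injOn (fun x => x.2) ?_ ?_
    · intro x hx
      rw [Finset.mem_coe, Finset.mem_filter, hE1, Finset.mem_filter] at hx
      exact (hS x hx.1.1).2
    · intro x hx y hy hxy
      rw [Finset.mem_coe, Finset.mem_filter] at hx hy
      have hxy' : x.2 = y.2 := hxy
      rcases lt_trichotomy x.1 y.1 with h | h | h
      · exact absurd ⟨x, hx.1, hxy', h⟩ hy.2
      · exact Prod.ext h hxy'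
      · exact absurd ⟨y, hy.1, hxy'.symm, h⟩ hx.2
  have h3 : E2.card ≤ (xing E).card := by
    -- the leftmost chord of `E1` with the right endpoint `b`, the longest chord of `E` from `a`
    have hex : ∀ x ∈ E2, ∃ z : (Fin n × Fin n) × (Fin n × Fin n), z ∈ xing E ∧ z.1.2 = x.2 ∧ z.2.1 = x.1 := by
      intro x hx
      rw [hE2, Finset.mem_filter] at hx
      obtain ⟨hx1, y, hy1, hy2, hy3⟩ := hx
      have hx1' := hx1
      have hy1' := hy1
      rw [hE1, Finset.mem_filter] at hx1 hy1
      obtain ⟨hxE, y', hy', hy'1, hy'2⟩ := hx1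
      refine ⟨(y, y'), ?_, hy2, hy'1⟩
      rw [mem_xing]
      refine ⟨⟨hy1.1, hy'⟩, ?_, ?_, ?_⟩
      · show y.1 < y'.1
        rw [hy'1]; exact hy3
      · show y'.1 < y.2
        rw [hy'1, hy2]; exact hE x hxE
      · show y.2 < y'.2
        rw [hy2]; exact hy'2
    choose! F hF using hex
    refine Finset.card_le_card_of_injOn F (fun x hx => (hF x hx).1) ?_
    intro x hx y hy hxy
    have h4 := hF x hx
    have h5 := hF y hy
    apply Prod.ext
    · rw [← h4.2.2, ← h5.2.2, hxy]
    · rw [← h4.2.1, ← h5.2.1, hxy]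
  have e1 := Finset.card_filter_add_card_filter_not (s := E) (fun x => ∃ y ∈ E, y.1 = x.1 ∧ x.2 < y.2)
  have e2 := Finset.card_filter_add_card_filter_not (s := E1) (fun x => ∃ y ∈ E1, y.2 = x.2 ∧ y.1 < x.1)
  rw [← hE1] at e1
  rw [← hE2] at e2
  omega

/-- the functions with the value `0` on `A` -/
theorem card_zero (q : ℕ) [NeZero q] (A : Finset (Fin n)) :
    q ^ A.card * (Finset.univ.filter (fun φ : Fin n → Fin q => ∀ a ∈ A, φ a = 0)).card = q ^ n := by
  classical
  have e : (Finset.univ.filter (fun φ : Fin n → Fin q => ∀ a ∈ A, φ a = 0)) =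
      Fintype.piFinset (fun a => if a ∈ A then {(0 : Fin q)} else Finset.univ) := by
    ext φ
    simp only [Finset.mem_filter, Finset.mem_univ, true_and, Fintype.mem_piFinset]
    constructor
    · intro h a
      split_ifs with ha
      · rw [Finset.mem_singleton]; exact h a ha
      · exact Finset.mem_univ _
    · intro h a ha
      have := h a
      rw [if_pos ha, Finset.mem_singleton] at this
      exact this
  rw [e, Fintype.card_piFinset]
  have e2 : ∀ a : Fin n, (if a ∈ A then {(0 : Fin q)} else (Finset.univ : Finset (Fin q))).card =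
      if a ∈ A then 1 else q := by
    intro a
    split_ifs <;> simp
  rw [Finset.prod_congr rfl (fun a _ => e2 a)]
  have e3 : q ^ A.card = ∏ a : Fin n, (if a ∈ A then q else 1) := by
    rw [Finset.prod_ite_mem, Finset.univ_inter, Finset.prod_const]
  rw [e3, ← Finset.prod_mul_distrib]
  have e4 : ∀ a : Fin n, (if a ∈ A then q else 1) * (if a ∈ A then 1 else q) = q := by
    intro a
    split_ifs <;> simp
  rw [Finset.prod_congr rfl (fun a _ => e4 a), Finset.prod_const, Finset.card_univ, Fintype.card_fin]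

open Classical in
/-- random subsets -/
theorem xing_amplify (q : ℕ) (hq : 0 < q) (E : Finset (Fin n × Fin n)) (hE : ∀ x ∈ E, x.1 < x.2) :
    q ^ 2 * E.card ≤ 2 * q ^ 3 * n + (xing E).card := by
  have : NeZero q := ⟨hq.ne'⟩
  set S : (Fin n → Fin q) → Finset (Fin n) := fun φ => Finset.univ.filter (fun a => φ a = 0) with hS
  set R : (Fin n → Fin q) → Finset (Fin n × Fin n) := fun φ => E.filter (fun x => φ x.1 = 0 ∧ φ x.2 = 0)
    with hR
  have h1 : ∀ φ, (R φ).card ≤ 2 * (S φ).card + (xing (R φ)).card := by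
    intro φ
    refine card_le_xing (S φ) (R φ) ?_ ?_
    · intro x hx
      exact hE x (Finset.mem_filter.1 hx).1
    · intro x hx
      rw [hR, Finset.mem_filter] at hx
      simp only [hS, Finset.mem_filter, Finset.mem_univ, true_and]
      exact hx.2
  have h2 := Finset.sum_le_sum (s := (Finset.univ : Finset (Fin n → Fin q))) (fun φ _ => h1 φ)
  rw [Finset.sum_add_distrib, ← Finset.mul_sum] at h2
  -- the three sums
  have s1 : q ^ 2 * ∑ φ, (R φ).card = E.card * q ^ n := by
    have : ∑ φ, (R φ).card = ∑ x ∈ E, (Finset.univ.filter (fun φ : Fin n → Fin q =>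
        φ x.1 = 0 ∧ φ x.2 = 0)).card := by
      simp only [hR, Finset.card_filter]
      exact Finset.sum_comm
    rw [this, Finset.mul_sum, Finset.sum_congr rfl (g := fun _ => q ^ n), Finset.sum_const, smul_eq_mul]
    intro x hx
    have h := card_zero q ({x.1, x.2} : Finset (Fin n))
    rw [Finset.card_pair (ne_of_lt (hE x hx))] at h
    rw [← h]
    congr 2
    ext φ
    simp
  have s2 : q * ∑ φ, (S φ).card = n * q ^ n := by
    have : ∑ φ, (S φ).card = ∑ a : Fin n, (Finset.univ.filter (fun φ : Fin n → Fin q => φ a = 0)).card := by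
      simp only [hS, Finset.card_filter]
      exact Finset.sum_comm
    rw [this, Finset.mul_sum, Finset.sum_congr rfl (g := fun _ => q ^ n), Finset.sum_const, smul_eq_mul,
      Finset.card_univ, Fintype.card_fin]
    intro a _
    have h := card_zero q ({a} : Finset (Fin n))
    rw [Finset.card_singleton, pow_one] at h
    rw [← h]
    congr 2
    ext φ
    simp
  have s3 : q ^ 4 * ∑ φ, (xing (R φ)).card = (xing E).card * q ^ n := by
    have e0 : ∀ φ, xing (R φ) = (xing E).filter (fun z =>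
        (φ z.1.1 = 0 ∧ φ z.1.2 = 0) ∧ (φ z.2.1 = 0 ∧ φ z.2.2 = 0)) := by
      intro φ
      ext z
      simp only [hR, mem_xing, Finset.mem_filter]
      tauto
    have : ∑ φ, (xing (R φ)).card = ∑ z ∈ xing E, (Finset.univ.filter (fun φ : Fin n → Fin q =>
        (φ z.1.1 = 0 ∧ φ z.1.2 = 0) ∧ (φ z.2.1 = 0 ∧ φ z.2.2 = 0))).card := by
      simp only [e0, Finset.card_filter]
      exact Finset.sum_comm
    rw [this, Finset.mul_sum, Finset.sum_congr rfl (g := fun _ => q ^ n), Finset.sum_const, smul_eq_mul]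
    intro z hz
    obtain ⟨_, g1, g2, g3⟩ := mem_xing.1 hz
    have h := card_zero q ({z.1.1, z.2.1, z.1.2, z.2.2} : Finset (Fin n))
    have hc : ({z.1.1, z.2.1, z.1.2, z.2.2} : Finset (Fin n)).card = 4 := by
      have i1 := ne_of_lt g1
      have i2 := ne_of_lt g2
      have i3 := ne_of_lt g3
      have i4 := ne_of_lt (g1.trans g2)
      have i5 := ne_of_lt (g2.trans g3)
      have i6 := ne_of_lt (g1.trans (g2.trans g3))
      rw [Finset.card_insert_of_notMem (by simp [i1, i4, i6]),
        Finset.card_insert_of_notMem (by simp [i2, i5]), Finset.card_pair i3]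
    rw [hc] at h
    rw [← h]
    congr 2
    ext φ
    simp only [Finset.mem_filter, Finset.mem_univ, true_and, Finset.mem_insert, Finset.mem_singleton,
      forall_eq_or_imp, forall_eq]
    tauto
  have hpos : 0 < q ^ n := by positivity
  refine Nat.le_of_mul_le_mul_right ?_ hpos
  calc q ^ 2 * E.card * q ^ n = q ^ 2 * (E.card * q ^ n) := by ring
    _ = q ^ 4 * ∑ φ, (R φ).card := by rw [← s1]; ring
    _ ≤ q ^ 4 * (2 * ∑ φ, (S φ).card + ∑ φ, (xing (R φ)).card) := Nat.mul_le_mul_left _ h2
    _ = 2 * q ^ 3 * (q * ∑ φ, (S φ).card) + q ^ 4 * ∑ φ, (xing (R φ)).card := by ring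
    _ = 2 * q ^ 3 * (n * q ^ n) + (xing E).card * q ^ n := by rw [s2, s3]
    _ = _ := by ring

/-- **The crossing lemma for chords.** -/
theorem xing_cube (E : Finset (Fin n × Fin n)) (hE : ∀ x ∈ E, x.1 < x.2) (h : 3 * n ≤ E.card) :
    E.card ^ 3 ≤ 216 * n ^ 2 * (xing E).card := by
  rcases Nat.eq_zero_or_pos n with hn | hn
  · subst hn
    have : E.card = 0 := by
      rw [Finset.card_eq_zero, Finset.eq_empty_iff_forall_notMem]
      intro x _
      exact x.1.elim0
    rw [this]
    simp
  set q := E.card / (3 * n) with hqd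
  have hq : 0 < q := Nat.div_pos h (by positivity)
  have h1 : 3 * n * q ≤ E.card := Nat.mul_div_le _ _
  have h2 : E.card < 3 * n * (q + 1) := by
    rw [hqd]
    exact Nat.lt_mul_div_succ _ (by positivity)
  have h3 : E.card ≤ 6 * n * q := by nlinarith
  have h4 := xing_amplify q hq E hE
  have h5 : n * q ^ 3 ≤ (xing E).card := by
    have : q ^ 2 * (3 * n * q) ≤ q ^ 2 * E.card := Nat.mul_le_mul_left _ h1
    nlinarith
  calc E.card ^ 3 ≤ (6 * n * q) ^ 3 := Nat.pow_le_pow_left h3 3
    _ = 216 * n ^ 2 * (n * q ^ 3) := by ring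
    _ ≤ _ := Nat.mul_le_mul_left _ h5

end Pool.Agent.V8H81.Rnd
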