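import Pool.Agent.V8H81.Rnd.General

set_option autoImplicit false

/-! Closed curves from lists of passages: the passages are numbered by means of keys. -/

namespace Pool.Agent.V8H81.Rnd

open Finset Pool.Agent.R811 Pool.Agent.R811.Cross

/-- A closed curve with `n` strands and the set `X` of double points: the double point `x` is passed on
the strand `s (inl x)` and on the strand `s (inr x)`; the passages are passed in the order of their keys
`key`. `left x = true`: the strand `s (inr x)` crosses the strand `s (inl x)` from the right to the left. -/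
structure Drawing (n : ℕ) where
  X : Type
  [fin : Fintype X]
  s : X ⊕ X → Fin n
  key : X ⊕ X → ℕ
  inj : Function.Injective key
  mono : ∀ x y, s x < s y → key x < key y
  ne : ∀ x, s (Sum.inl x) ≠ s (Sum.inr x)
  left : X → Bool

namespace Drawing

attribute [instance] Drawing.fin

variable {n : ℕ} (C : Drawing n)

/-- the number of the double points -/
abbrev N : ℕ := Fintype.card C.X

/-- the set of the keys -/
def keys : Finset ℕ := Finset.univ.image C.key

theorem card_keys : C.keys.card = 2 * C.N := by
  unfold keys
  rw [Finset.card_image_of_injective _ C.inj, Finset.card_univ, Fintype.card_sum]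
  ring

/-- the number `0, …, 2 N - 1` of a passage, in the order of the keys -/
noncomputable def num (z : C.X ⊕ C.X) : Fin (2 * C.N) :=
  (C.keys.orderIsoOfFin C.card_keys).symm ⟨C.key z, Finset.mem_image_of_mem _ (Finset.mem_univ z)⟩

theorem num_lt {z z' : C.X ⊕ C.X} : C.num z < C.num z' ↔ C.key z < C.key z' := by
  unfold num
  rw [OrderIso.lt_iff_lt]
  exact Iff.rfl

theorem num_inj : Function.Injective C.num := by
  intro z z' h
  apply C.inj
  have h1 : ¬ C.key z < C.key z' := fun hlt => (ne_of_lt (C.num_lt.2 hlt)) h
  have h2 : ¬ C.key z' < C.key z := fun hlt => (ne_of_lt (C.num_lt.2 hlt)) h.symm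
  omega

theorem num_bij : Function.Bijective C.num := by
  rw [Fintype.bijective_iff_injective_and_card]
  refine ⟨C.num_inj, ?_⟩
  rw [Fintype.card_sum, Fintype.card_fin]
  ring

/-- the numbering of the passages as an equivalence -/
noncomputable def numE : (C.X ⊕ C.X) ≃ Fin (2 * C.N) := Equiv.ofBijective C.num C.num_bij

/-- a numbering of the double points -/
noncomputable def dp : Fin C.N ≃ C.X := (Fintype.equivFin C.X).symm

/-- The curve as a Gauss code with strands. -/
noncomputable def toLayered : Layered n C.N where
  p i := C.num (Sum.inl (C.dp i))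
  q i := C.num (Sum.inr (C.dp i))
  bij := by
    have e : (Sum.elim (fun i => C.num (Sum.inl (C.dp i))) (fun i => C.num (Sum.inr (C.dp i)))) =
        C.num ∘ (Equiv.sumCongr C.dp C.dp) := by
      funext i
      rcases i with i | i <;> rfl
    rw [e]
    exact C.num_bij.comp (Equiv.bijective _)
  left i := C.left (C.dp i)
  strand e := C.s (C.numE.symm e)
  mono := by
    intro e e' h
    by_contra hc
    have h1 := C.mono _ _ (not_le.1 hc)
    rw [← C.num_lt] at h1
    have h2 : C.num (C.numE.symm e) = e := C.numE.apply_symm_apply e
    have h3 : C.num (C.numE.symm e') = e' := C.numE.apply_symm_apply e'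
    rw [h2, h3] at h1
    exact absurd h (not_le.2 h1)
  ne i := by
    have h1 : ∀ z, C.numE.symm (C.num z) = z := fun z => C.numE.symm_apply_apply z
    rw [h1, h1]
    exact C.ne _

theorem strand_p (i : Fin C.N) : C.toLayered.strand (C.toLayered.p i) = C.s (Sum.inl (C.dp i)) :=
  congrArg C.s (C.numE.symm_apply_apply _)

theorem strand_q (i : Fin C.N) : C.toLayered.strand (C.toLayered.q i) = C.s (Sum.inr (C.dp i)) :=
  congrArg C.s (C.numE.symm_apply_apply _)

theorem once_of (a b : Fin n) (h : ∃! x : C.X, (C.s (Sum.inl x) = a ∧ C.s (Sum.inr x) = b) ∨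
    (C.s (Sum.inl x) = b ∧ C.s (Sum.inr x) = a)) : C.toLayered.Once a b := by
  obtain ⟨x, hx, hu⟩ := h
  refine ⟨C.dp.symm x, ?_, ?_⟩
  · simp only [C.strand_p, C.strand_q, Equiv.apply_symm_apply]
    exact hx
  · intro i hi
    simp only [C.strand_p, C.strand_q] at hi
    rw [← hu _ hi, Equiv.symm_apply_apply]

end Drawing

end Pool.Agent.V8H81.Rnd
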