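import Pool.Agent.V8H81.Rnd.Draw

set_option autoImplicit false

/-!
# Grid diagrams seen from above

Let `c` and `r` be permutations of `0, …, n - 1`.  The knot of the grid diagram with the columns `c` and the
rows `r` is the closed curve which runs, for `t = 0, …, n - 1` (cyclically), along the row `r t` from the
column `c (t - 1)` to the column `c t`, and then along the column `c t` from the row `r t` to the row
`r (t + 1)`; the columns lie in front of the rows.

We look at it from above.  Each row is bent backwards: the strand number `t` starts at the column `c (t - 1)`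
at the front, goes straight backwards to the depth `t` (the first leg), then sideways at the depth `t` to the
place of the column `c t`, and then straight forwards to the front (the second leg).  The columns
themselves are seen as points, and the two legs which end at a column are drawn close to each other on the
two sides of its place: the leg of the strand with the smaller number (the shallower one) is on the side
where the rest of this strand is, so that the deeper leg does not cross it.  So the strand `b` crosses the strand
`a < b` where a leg of `b` crosses the sideways part of `a`, that is if the place of this leg lies strictly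
between the places of the two columns of `a`.  At the crossings the strand with the larger height `r` is the upper
one.
-/

namespace Pool.Agent.V8H81.Rnd

open Finset Pool.Agent.R811 Pool.Agent.R811.Cross

variable {n : ℕ}

/-- the next strand, cyclically -/
def nxt (t : Fin n) : Fin n := ⟨((t : ℕ) + 1) % n, Nat.mod_lt _ (by have := t.2; omega)⟩

/-- the previous strand, cyclically -/
def prv (t : Fin n) : Fin n := ⟨((t : ℕ) + (n - 1)) % n, Nat.mod_lt _ (by have := t.2; omega)⟩

theorem nxt_val (t : Fin n) : ((nxt t : Fin n) : ℕ) = if (t : ℕ) + 1 = n then 0 else (t : ℕ) + 1 := by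
  have := t.2
  unfold nxt
  split_ifs with h
  · simp [h]
  · exact Nat.mod_eq_of_lt (by omega)

theorem prv_val (t : Fin n) : ((prv t : Fin n) : ℕ) = if (t : ℕ) = 0 then n - 1 else (t : ℕ) - 1 := by
  have := t.2
  unfold prv
  split_ifs with h
  · show ((t : ℕ) + (n - 1)) % n = n - 1
    rw [h, zero_add]
    exact Nat.mod_eq_of_lt (by omega)
  · have e : (t : ℕ) + (n - 1) = ((t : ℕ) - 1) + n := by omega
    show ((t : ℕ) + (n - 1)) % n = (t : ℕ) - 1
    rw [e, Nat.add_mod_right]
    exact Nat.mod_eq_of_lt (by omega)

theorem nxt_prv (t : Fin n) : nxt (prv t) = t := by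
  apply Fin.ext
  have := t.2
  rw [nxt_val, prv_val]
  split_ifs <;> omega

theorem prv_nxt (t : Fin n) : prv (nxt t) = t := by
  apply Fin.ext
  have := t.2
  have h1 := nxt_val t
  have h2 := prv_val (nxt t)
  split_ifs at h1 h2 <;> omega

theorem prv_inj : Function.Injective (prv : Fin n → Fin n) :=
  Function.LeftInverse.injective nxt_prv

variable (c : Equiv.Perm (Fin n))

/-- the column at which the first (`e = false`) or the second (`e = true`) leg of the strand `b` ends -/
def col (b : Fin n) (e : Bool) : Fin n := if e then c b else c (prv b)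

/-- the strand whose other leg ends at the same column as the leg `e` of the strand `b` -/
def mate (b : Fin n) (e : Bool) : Fin n := if e then nxt b else prv b

/-- the leg `e` of the strand `b` is on the left side (`0`) or on the right side (`1`) of its column -/
def side (b : Fin n) (e : Bool) : ℕ :=
  if b < mate b e then (if col c b (!e) < col c b e then 0 else 1)
  else (if col c (mate b e) e < col c b e then 1 else 0)

/-- The double points: `(a, b, e)` is the crossing of the sideways part of the strand `a` and the leg `e` of
the strand `b`, `a < b`. -/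
def IsDP (x : Fin n × Fin n × Bool) : Prop :=
  x.1 < x.2.1 ∧ Shadow.Between (c (prv x.1)) (c x.1) (col c x.2.1 x.2.2)

instance : DecidablePred (IsDP c) := fun x => by unfold IsDP Shadow.Between; infer_instance

/-- the part of its strand (`0`: first leg, `1`: sideways part, `2`: second leg) on which a passage lies -/
def part (z : {x // IsDP c x} ⊕ {x // IsDP c x}) : ℕ :=
  match z with
  | Sum.inl _ => 1
  | Sum.inr x => if x.1.2.2 then 2 else 0

/-- the position of a passage on this part -/
def pos (z : {x // IsDP c x} ⊕ {x // IsDP c x}) : ℕ :=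
  match z with
  | Sum.inl x =>
    if c (prv x.1.1) < c x.1.1 then 2 * (col c x.1.2.1 x.1.2.2 : ℕ) + side c x.1.2.1 x.1.2.2
    else 2 * n - (2 * (col c x.1.2.1 x.1.2.2 : ℕ) + side c x.1.2.1 x.1.2.2)
  | Sum.inr x => if x.1.2.2 then n - x.1.1 else x.1.1

/-- the strand of a passage -/
def str (z : {x // IsDP c x} ⊕ {x // IsDP c x}) : Fin n :=
  match z with
  | Sum.inl x => x.1.1
  | Sum.inr x => x.1.2.1

/-- the key of a passage -/
def key (z : {x // IsDP c x} ⊕ {x // IsDP c x}) : ℕ :=
  (3 * (str c z : ℕ) + part c z) * (2 * n + 1) + pos c z

theorem side_le (b : Fin n) (e : Bool) : side c b e ≤ 1 := by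
  unfold side
  split_ifs <;> omega

theorem pos_lt (z : {x // IsDP c x} ⊕ {x // IsDP c x}) : pos c z < 2 * n + 1 := by
  rcases z with x | x
  · have h1 := side_le c x.1.2.1 x.1.2.2
    have h2 := (col c x.1.2.1 x.1.2.2).2
    unfold pos
    dsimp only
    split_ifs <;> omega
  · have h1 := x.1.1.2
    unfold pos
    dsimp only
    split_ifs <;> omega

theorem part_lt (z : {x // IsDP c x} ⊕ {x // IsDP c x}) : part c z < 3 := by
  rcases z with x | x
  · show 1 < 3
    omega
  · unfold part
    dsimp only
    split_ifs <;> omega

theorem key_inj3 {z z' : {x // IsDP c x} ⊕ {x // IsDP c x}} (h : key c z = key c z') :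
    str c z = str c z' ∧ part c z = part c z' ∧ pos c z = pos c z' := by
  unfold key at h
  have h1 := pos_lt c z
  have h2 := pos_lt c z'
  have h3 := part_lt c z
  have h4 := part_lt c z'
  have e1 : ∀ q p : ℕ, p < 2 * n + 1 → (q * (2 * n + 1) + p) / (2 * n + 1) = q := by
    intro q p hp
    rw [mul_comm, Nat.mul_add_div (by omega), Nat.div_eq_of_lt hp, add_zero]
  have e2 : ((3 * (str c z : ℕ) + part c z) * (2 * n + 1) + pos c z) / (2 * n + 1) =
      ((3 * (str c z' : ℕ) + part c z') * (2 * n + 1) + pos c z') / (2 * n + 1) := by rw [h]
  rw [e1 _ _ h1, e1 _ _ h2] at e2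
  have e3 : pos c z = pos c z' := by
    rw [e2] at h
    omega
  exact ⟨Fin.ext (by omega), by omega, e3⟩

/-- the two legs at a column are on different sides -/
theorem side_ne {b b' : Fin n} (hb : b ≠ b') (h : b = prv b') : side c b true ≠ side c b' false := by
  have h2 : nxt b = b' := by rw [h, nxt_prv]
  have hp : col c b' false = col c b true := by
    unfold col
    simp [h]
  have hm1 : mate b true = b' := by unfold mate; simp [h2]
  have hm2 : mate b' false = b := by unfold mate; simp [h]
  unfold side
  rw [hm1, hm2, hp]
  simp only [Bool.not_true, Bool.not_false]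
  rcases lt_or_gt_of_ne hb with h3 | h3
  · rw [if_pos h3, if_neg (not_lt.2 h3.le)]
    split_ifs <;> omega
  · rw [if_neg (not_lt.2 h3.le), if_pos h3]
    split_ifs <;> omega

theorem leg_inj {b b' : Fin n} {e e' : Bool} (hn : 2 ≤ n) (h1 : col c b e = col c b' e')
    (h2 : side c b e = side c b' e') : b = b' ∧ e = e' := by
  have hp : ∀ t : Fin n, prv t ≠ t := by
    intro t ht
    have := congrArg Fin.val ht
    rw [prv_val] at this
    have := t.2
    split_ifs at * <;> omega
  cases e <;> cases e'
  · refine ⟨?_, rfl⟩
    unfold col at h1
    simp only [Bool.false_eq_true, if_false] at h1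
    exact prv_inj (c.injective h1)
  · exfalso
    unfold col at h1
    simp only [Bool.false_eq_true, if_false, if_true] at h1
    have h3 : b' = prv b := (c.injective h1).symm
    refine side_ne c ?_ h3 h2.symm
    rw [h3]
    exact hp b
  · exfalso
    unfold col at h1
    simp only [Bool.false_eq_true, if_false, if_true] at h1
    have h3 : b = prv b' := c.injective h1
    refine side_ne c ?_ h3 h2
    rw [h3]
    exact hp b'
  · refine ⟨?_, rfl⟩
    unfold col at h1
    simp only [if_true] at h1
    exact c.injective h1

theorem key_inj : Function.Injective (key c) := by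
  intro z z' h
  obtain ⟨h1, h2, h3⟩ := key_inj3 c h
  rcases z with ⟨⟨a, b, e⟩, hx⟩ | ⟨⟨a, b, e⟩, hx⟩ <;> rcases z' with ⟨⟨a', b', e'⟩, hx'⟩ | ⟨⟨a', b', e'⟩, hx'⟩
  · have ha : a = a' := h1
    subst ha
    have hab : a < b := hx.1
    have hn : 2 ≤ n := by
      have := b.2
      have : (a : ℕ) < b := hab
      omega
    have hs : 2 * (col c b e : ℕ) + side c b e = 2 * (col c b' e' : ℕ) + side c b' e' := by
      have g1 := side_le c b e
      have g2 := side_le c b' e'
      have g3 := (col c b e).2
      have g4 := (col c b' e').2
      have h3' : (if c (prv a) < c a then 2 * (col c b e : ℕ) + side c b e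
        else 2 * n - (2 * (col c b e : ℕ) + side c b e)) =
        (if c (prv a) < c a then 2 * (col c b' e' : ℕ) + side c b' e'
        else 2 * n - (2 * (col c b' e' : ℕ) + side c b' e')) := h3
      split_ifs at h3' <;> omega
    have g1 := side_le c b e
    have g2 := side_le c b' e'
    obtain ⟨h4, h5⟩ := leg_inj c hn (Fin.ext (by omega) : col c b e = col c b' e') (by omega)
    subst h4
    subst h5
    rfl
  · exfalso
    have : (1 : ℕ) = if e' then 2 else 0 := h2
    split_ifs at this <;> omega
  · exfalso
    have : (if e then 2 else 0 : ℕ) = 1 := h2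
    split_ifs at this <;> omega
  · have hb : b = b' := h1
    subst hb
    have he : (if e then 2 else 0 : ℕ) = if e' then 2 else 0 := h2
    have he' : e = e' := by
      cases e <;> cases e' <;> simp_all
    subst he'
    have h3' : (if e then n - (a : ℕ) else (a : ℕ)) = if e then n - (a' : ℕ) else (a' : ℕ) := h3
    have h6 := a.2
    have h7 := a'.2
    have ha : a = a' := by
      apply Fin.ext
      split_ifs at h3' <;> omega
    subst ha
    rfl

theorem key_mono (x y : {x // IsDP c x} ⊕ {x // IsDP c x}) (h : str c x < str c y) :
    key c x < key c y := by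
  unfold key
  have h1 := pos_lt c x
  have h3 := part_lt c x
  have h5 : (str c x : ℕ) + 1 ≤ str c y := h
  have h6 : 3 * (str c x : ℕ) + part c x + 1 ≤ 3 * (str c y : ℕ) + part c y := by omega
  calc _ < (3 * (str c x : ℕ) + part c x) * (2 * n + 1) + (2 * n + 1) := by omega
    _ = (3 * (str c x : ℕ) + part c x + 1) * (2 * n + 1) := by ring
    _ ≤ (3 * (str c y : ℕ) + part c y) * (2 * n + 1) := Nat.mul_le_mul_right _ h6
    _ ≤ _ := Nat.le_add_right _ _

/-- The curve, seen from above. -/
def drawing : Drawing n where
  X := {x // IsDP c x}
  s := str c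
  key := key c
  inj := key_inj c
  mono := key_mono c
  ne x := ne_of_lt x.2.1
  left x := xor (decide (c (prv x.1.1) < c x.1.1)) x.1.2.2

/-- the curve with its strands -/
noncomputable def grid : Layered n (drawing c).N := (drawing c).toLayered

/-- the columns of the strands `a` and `b` are linked -/
def LC (a b : Fin n) : Prop := Linked (c (prv a)) (c a) (c (prv b)) (c b)

instance (c : Equiv.Perm (Fin n)) (a b : Fin n) : Decidable (LC c a b) :=
  inferInstanceAs (Decidable (Linked _ _ _ _))

theorem linked_symm {a b x y : ℕ} (h : Linked a b x y) : Linked x y a b := by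
  unfold Linked Shadow.Between at h ⊢
  omega

theorem once_of_linked {a b : Fin n} (h : LC c a b) : (grid c).Once a b := by
  have key1 : ∀ a b : Fin n, a < b → LC c a b → ∃! x : (drawing c).X,
      ((drawing c).s (Sum.inl x) = a ∧ (drawing c).s (Sum.inr x) = b) ∨
      ((drawing c).s (Sum.inl x) = b ∧ (drawing c).s (Sum.inr x) = a) := by
    intro a b hab hl
    have hex : ∃ e : Bool, Shadow.Between (c (prv a)) (c a) (col c b e) ∧
        ¬ Shadow.Between (c (prv a)) (c a) (col c b (!e)) := by
      unfold LC Linked Shadow.Between at hl
      rcases hl with hl | hl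
      · refine ⟨false, ?_⟩
        unfold col Shadow.Between
        simp only [Bool.false_eq_true, if_false, Bool.not_false, if_true]
        omega
      · refine ⟨true, ?_⟩
        unfold col Shadow.Between
        simp only [Bool.not_true, Bool.false_eq_true, if_false, if_true]
        omega
    obtain ⟨e, he, he'⟩ := hex
    refine ⟨⟨(a, b, e), hab, he⟩, Or.inl ⟨rfl, rfl⟩, ?_⟩
    rintro ⟨⟨a', b', e'⟩, hx⟩ (⟨h1, h2⟩ | ⟨h1, h2⟩)
    · have h1' : a' = a := h1
      have h2' : b' = b := h2
      subst h1'
      subst h2'
      have : e' = e := by
        by_contra hne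
        have : e' = !e := by
          cases e <;> cases e' <;> simp_all
        exact he' (this ▸ hx.2)
      subst this
      rfl
    · exfalso
      have h1' : a' = b := h1
      have h2' : b' = a := h2
      have h3 : a' < b' := hx.1
      rw [h1', h2'] at h3
      exact absurd h3 (not_lt.2 hab.le)
  apply Drawing.once_of
  have hne : a ≠ b := by
    rintro rfl
    obtain ⟨h1, h2, h3, h4, h5, h6⟩ := linked_inj h
    exact h2 rfl
  rcases lt_or_gt_of_ne hne with hab | hab
  · exact key1 a b hab h
  · obtain ⟨x, hx, hu⟩ := key1 b a hab (linked_symm h)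
    exact ⟨x, Or.symm hx, fun y hy => hu y (Or.symm hy)⟩

/-- lower bound for the number of quadruples -/
theorem quads_ge : (Finset.univ.filter (fun t : Fin 4 → Fin n =>
    LC c (t 0) (t 1) ∧ LC c (t 2) (t 3) ∧ Linked (t 0) (t 1) (t 2) (t 3))).card ≤ (grid c).quads := by
  classical
  unfold Layered.quads
  apply Finset.card_le_card
  intro t ht
  rw [Finset.mem_filter] at ht ⊢
  exact ⟨Finset.mem_univ _, once_of_linked c ht.2.1, once_of_linked c ht.2.2.1, ht.2.2.2⟩

end Pool.Agent.V8H81.Rnd
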