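import Pool.Agent.V8H81.Rnd.Grid

set_option autoImplicit false

/-! Counting linked quadruples for random columns. -/

namespace Pool.Agent.V8H81.Rnd

open Finset Pool.Agent.R811 Pool.Agent.R811.Cross

variable {n : ℕ}

theorem linked_not1 {a b x y : ℕ} (h : Linked a b x y) : ¬ Linked a x b y := by
  unfold Linked Shadow.Between at *
  omega

theorem linked_not2 {a b x y : ℕ} (h : Linked a b x y) : ¬ Linked a y x b := by
  unfold Linked Shadow.Between at *
  omega

theorem linked_or {a b x y : ℕ} (hab : a ≠ b) (hax : a ≠ x) (hay : a ≠ y) (hbx : b ≠ x) (hby : b ≠ y)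
    (hxy : x ≠ y) (h1 : ¬ Linked a b x y) (h2 : ¬ Linked a x b y) : Linked a y x b := by
  unfold Linked Shadow.Between at *
  rcases lt_or_gt_of_ne hab with h | h <;> rcases lt_or_gt_of_ne hax with g | g <;>
    rcases lt_or_gt_of_ne hay with k | k <;> rcases lt_or_gt_of_ne hbx with l | l <;>
    rcases lt_or_gt_of_ne hby with m | m <;> omega

theorem linked_three {a b x y : ℕ} (hab : a ≠ b) (hax : a ≠ x) (hay : a ≠ y) (hbx : b ≠ x) (hby : b ≠ y)
    (hxy : x ≠ y) (v : ℤ) : (if Linked a b x y then v else 0) + (if Linked a x b y then v else 0) +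
      (if Linked a y x b then v else 0) = v := by
  by_cases h1 : Linked a b x y
  · simp [h1, linked_not1 h1, linked_not2 h1]
  · by_cases h2 : Linked a x b y
    · have h3 : ¬ Linked a y x b := by
        intro h3
        unfold Linked Shadow.Between at *
        omega
      simp [h1, h2, h3]
    · simp [h1, h2, linked_or hab hax hay hbx hby hxy h1 h2]

/-- the three pairings of four distinct places are equally likely to be linked -/
theorem three {a b x y : Fin n} (hab : a ≠ b) (hax : a ≠ x) (hay : a ≠ y) (hbx : b ≠ x) (hby : b ≠ y)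
    (hxy : x ≠ y) (F : Equiv.Perm (Fin n) → ℤ) (h1 : ∀ c, F (c * Equiv.swap b x) = F c)
    (h2 : ∀ c, F (c * Equiv.swap b y) = F c) :
    3 * ∑ c, (if Linked (c a) (c b) (c x) (c y) then F c else 0) = ∑ c, F c := by
  have e1 : ∑ c : Equiv.Perm (Fin n), (if Linked (c a) (c x) (c b) (c y) then F c else 0) =
      ∑ c : Equiv.Perm (Fin n), (if Linked (c a) (c b) (c x) (c y) then F c else 0) := by
    refine Fintype.sum_equiv (Equiv.mulRight (Equiv.swap b x)) _ _ ?_
    intro c
    simp only [Equiv.coe_mulRight, Equiv.Perm.mul_apply, h1, Equiv.swap_apply_left,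
      Equiv.swap_apply_right, Equiv.swap_apply_of_ne_of_ne hab hax, Equiv.swap_apply_of_ne_of_ne hby.symm hxy.symm]
  have e2 : ∑ c : Equiv.Perm (Fin n), (if Linked (c a) (c y) (c x) (c b) then F c else 0) =
      ∑ c : Equiv.Perm (Fin n), (if Linked (c a) (c b) (c x) (c y) then F c else 0) := by
    refine Fintype.sum_equiv (Equiv.mulRight (Equiv.swap b y)) _ _ ?_
    intro c
    simp only [Equiv.coe_mulRight, Equiv.Perm.mul_apply, h2, Equiv.swap_apply_left,
      Equiv.swap_apply_right, Equiv.swap_apply_of_ne_of_ne hab hay, Equiv.swap_apply_of_ne_of_ne hbx.symm hxy]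
  have e3 : ∑ c : Equiv.Perm (Fin n), ((if Linked (c a) (c b) (c x) (c y) then F c else 0) +
      (if Linked (c a) (c x) (c b) (c y) then F c else 0) +
      (if Linked (c a) (c y) (c x) (c b) then F c else 0)) = ∑ c, F c := by
    refine Finset.sum_congr rfl fun c _ => ?_
    have hv : ∀ u v : Fin n, u ≠ v → ((c u : Fin n) : ℕ) ≠ c v := by
      intro u v huv he
      exact huv (c.injective (Fin.ext he))
    exact linked_three (hv _ _ hab) (hv _ _ hax) (hv _ _ hay) (hv _ _ hbx) (hv _ _ hby) (hv _ _ hxy) _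
  rw [Finset.sum_add_distrib, Finset.sum_add_distrib, e1, e2] at e3
  linarith

/-- the eight places of four strands are different -/
def Sep (t : Fin 4 → Fin n) : Prop := (∀ i j, i ≠ j → t i ≠ t j) ∧ (∀ i j, prv (t i) ≠ t j)

/-- a place of one of four strands -/
def Pl (t : Fin 4 → Fin n) (z : Fin n) : Prop := ∃ i, z = t i ∨ z = prv (t i)

/-- the event that the first two of four strands and the last two have linked columns -/
def Ev (t : Fin 4 → Fin n) (c : Equiv.Perm (Fin n)) : Prop := LC c (t 0) (t 1) ∧ LC c (t 2) (t 3)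

instance (t : Fin 4 → Fin n) (c : Equiv.Perm (Fin n)) : Decidable (Ev t c) :=
  inferInstanceAs (Decidable (_ ∧ _))

theorem LC_swap {c : Equiv.Perm (Fin n)} {u v a b : Fin n} (h1 : a ≠ u) (h2 : a ≠ v) (h3 : b ≠ u) (h4 : b ≠ v)
    (h5 : prv a ≠ u) (h6 : prv a ≠ v) (h7 : prv b ≠ u) (h8 : prv b ≠ v) :
    LC (c * Equiv.swap u v) a b ↔ LC c a b := by
  unfold LC
  simp only [Equiv.Perm.mul_apply, Equiv.swap_apply_of_ne_of_ne h1 h2, Equiv.swap_apply_of_ne_of_ne h3 h4,
    Equiv.swap_apply_of_ne_of_ne h5 h6, Equiv.swap_apply_of_ne_of_ne h7 h8]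

theorem Ev_swap {t t' : Fin 4 → Fin n} (hd : ∀ z, Pl t z → ¬ Pl t' z) {u v : Fin n} (hu : Pl t u)
    (hv : Pl t v) (c : Equiv.Perm (Fin n)) : Ev t' (c * Equiv.swap u v) ↔ Ev t' c := by
  have h : ∀ i w, Pl t w → t' i ≠ w ∧ prv (t' i) ≠ w := fun i w hw =>
    ⟨fun e => hd w hw ⟨i, Or.inl e.symm⟩, fun e => hd w hw ⟨i, Or.inr e.symm⟩⟩
  unfold Ev
  rw [LC_swap (h 0 u hu).1 (h 0 v hv).1 (h 1 u hu).1 (h 1 v hv).1 (h 0 u hu).2 (h 0 v hv).2 (h 1 u hu).2
    (h 1 v hv).2, LC_swap (h 2 u hu).1 (h 2 v hv).1 (h 3 u hu).1 (h 3 v hv).1 (h 2 u hu).2 (h 2 v hv).2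
    (h 3 u hu).2 (h 3 v hv).2]

theorem nine (t : Fin 4 → Fin n) (ht : Sep t) (F : Equiv.Perm (Fin n) → ℤ)
    (hF : ∀ u v c, Pl t u → Pl t v → F (c * Equiv.swap u v) = F c) :
    9 * ∑ c, (if Ev t c then F c else 0) = ∑ c, F c := by
  obtain ⟨h1, h2⟩ := ht
  have hp : ∀ i j, i ≠ j → prv (t i) ≠ prv (t j) := fun i j hij e => h1 i j hij (prv_inj e)
  have e1 : 3 * ∑ c, (if LC c (t 0) (t 1) then (if LC c (t 2) (t 3) then F c else 0) else 0) =
      ∑ c, (if LC c (t 2) (t 3) then F c else 0) := by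
    have hinv : ∀ u v, (∀ i : Fin 4, i = 2 ∨ i = 3 → t i ≠ u ∧ t i ≠ v ∧ prv (t i) ≠ u ∧ prv (t i) ≠ v) →
        Pl t u → Pl t v → ∀ c, (if LC (c * Equiv.swap u v) (t 2) (t 3) then F (c * Equiv.swap u v) else 0) =
          (if LC c (t 2) (t 3) then F c else 0) := by
      intro u v huv hu hv c
      obtain ⟨g1, g2, g3, g4⟩ := huv 2 (Or.inl rfl)
      obtain ⟨g5, g6, g7, g8⟩ := huv 3 (Or.inr rfl)
      rw [hF u v c hu hv]
      simp only [LC_swap g1 g2 g5 g6 g3 g4 g7 g8]
    refine three (F := fun c => if LC c (t 2) (t 3) then F c else 0) (h2 0 0) (hp 0 1 (by decide)) (h2 0 1)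
      (h2 1 0).symm (h1 0 1 (by decide)) (h2 1 1) ?_ ?_
    · refine hinv _ _ ?_ ⟨0, Or.inl rfl⟩ ⟨1, Or.inr rfl⟩
      intro i hi
      have hi0 : i ≠ 0 := by rcases hi with rfl | rfl <;> decide
      have hi1 : i ≠ 1 := by rcases hi with rfl | rfl <;> decide
      exact ⟨h1 i 0 hi0, (h2 1 i).symm, h2 i 0, hp i 1 hi1⟩
    · refine hinv _ _ ?_ ⟨0, Or.inl rfl⟩ ⟨1, Or.inl rfl⟩
      intro i hi
      have hi0 : i ≠ 0 := by rcases hi with rfl | rfl <;> decide
      have hi1 : i ≠ 1 := by rcases hi with rfl | rfl <;> decide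
      exact ⟨h1 i 0 hi0, h1 i 1 hi1, h2 i 0, h2 i 1⟩
  have e2 : 3 * ∑ c, (if LC c (t 2) (t 3) then F c else 0) = ∑ c, F c := by
    refine three (h2 2 2) (hp 2 3 (by decide)) (h2 2 3) (h2 3 2).symm (h1 2 3 (by decide)) (h2 3 3) F ?_ ?_
    · exact fun c => hF _ _ c ⟨2, Or.inl rfl⟩ ⟨3, Or.inr rfl⟩
    · exact fun c => hF _ _ c ⟨2, Or.inl rfl⟩ ⟨3, Or.inl rfl⟩
  have e3 : ∑ c, (if Ev t c then F c else 0) =
      ∑ c, (if LC c (t 0) (t 1) then (if LC c (t 2) (t 3) then F c else 0) else 0) := by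
    refine Finset.sum_congr rfl fun c _ => ?_
    unfold Ev
    by_cases g1 : LC c (t 0) (t 1) <;> by_cases g2 : LC c (t 2) (t 3) <;> simp [g1, g2]
  rw [e3]
  linarith

theorem card_perm_int : ∑ _c : Equiv.Perm (Fin n), (1 : ℤ) = n.factorial := by
  simp [Fintype.card_perm]

theorem one_Ev (t : Fin 4 → Fin n) (ht : Sep t) :
    9 * ∑ c, (if Ev t c then (1 : ℤ) else 0) = n.factorial := by
  rw [nine t ht (fun _ => 1) (fun _ _ _ _ _ => rfl), card_perm_int]

theorem two_Ev (t t' : Fin 4 → Fin n) (ht : Sep t) (ht' : Sep t') (hd : ∀ z, Pl t z → ¬ Pl t' z) :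
    81 * ∑ c, (if Ev t c then (if Ev t' c then (1 : ℤ) else 0) else 0) = n.factorial := by
  have h1 := nine t ht (fun c => if Ev t' c then (1 : ℤ) else 0) (by
    intro u v c hu hv
    simp only [Ev_swap hd hu hv c])
  have h2 := one_Ev t' ht'
  linarith

theorem two_Ev' (t t' : Fin 4 → Fin n) (ht : Sep t) :
    81 * ∑ c, (if Ev t c then (if Ev t' c then (1 : ℤ) else 0) else 0) ≤ 9 * n.factorial := by
  have h1 : ∑ c, (if Ev t c then (if Ev t' c then (1 : ℤ) else 0) else 0) ≤
      ∑ c, (if Ev t c then (1 : ℤ) else 0) := by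
    refine Finset.sum_le_sum fun c _ => ?_
    split_ifs <;> omega
  have h2 := one_Ev t ht
  linarith

/-! ### the quadruples -/

open Classical in
/-- linked quadruples with different places -/
noncomputable def W (n : ℕ) : Finset (Fin 4 → Fin n) :=
  Finset.univ.filter (fun t => Linked (t 0) (t 1) (t 2) (t 3) ∧ Sep t)

open Classical in
theorem card_fix (j : Fin 4) (v : Fin n) :
    (Finset.univ.filter (fun t : Fin 4 → Fin n => t j = v)).card ≤ n ^ 3 := by
  have h : (Finset.univ.filter (fun t : Fin 4 → Fin n => t j = v)).card ≤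
      (Finset.univ : Finset ({k : Fin 4 // k ≠ j} → Fin n)).card := by
    refine Finset.card_le_card_of_injOn (fun t k => t k.1) (fun _ _ => Finset.mem_univ _) ?_
    intro t ht t' ht' he
    simp only [Finset.coe_filter, Finset.mem_univ, true_and, Set.mem_ofPred_eq] at ht ht'
    funext k
    by_cases hk : k = j
    · rw [hk, ht, ht']
    · exact congrFun he ⟨k, hk⟩
  refine h.trans (le_of_eq ?_)
  rw [Finset.card_univ, Fintype.card_fun, Fintype.card_fin, Fintype.card_subtype_compl]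
  simp

open Classical in
/-- few quadruples meet a given one -/
theorem card_meet (t : Fin 4 → Fin n) :
    (Finset.univ.filter (fun t' : Fin 4 → Fin n => ¬ ∀ z, Pl t z → ¬ Pl t' z)).card ≤ 48 * n ^ 3 := by
  have hsub : (Finset.univ.filter (fun t' : Fin 4 → Fin n => ¬ ∀ z, Pl t z → ¬ Pl t' z)) ⊆
      (Finset.univ : Finset (Fin 4 × Fin 4 × Fin 3)).biUnion (fun x =>
        Finset.univ.filter (fun t' : Fin 4 → Fin n =>
          t' x.1 = if x.2.2 = 0 then t x.2.1 else if x.2.2 = 1 then prv (t x.2.1) else nxt (t x.2.1))) := by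
    intro t' ht'
    rw [Finset.mem_filter] at ht'
    simp only [Finset.mem_biUnion, Finset.mem_univ, true_and, Finset.mem_filter]
    have h := ht'.2
    push Not at h
    obtain ⟨z, ⟨i, hi⟩, ⟨j, hj⟩⟩ := h
    rcases hi with hi | hi <;> rcases hj with hj | hj
    · exact ⟨(j, i, 0), by simp [← hi, ← hj]⟩
    · refine ⟨(j, i, 2), ?_⟩
      have : nxt (t i) = t' j := by rw [← hi, hj, nxt_prv]
      simp [this]
    · exact ⟨(j, i, 1), by simp [← hi, ← hj]⟩
    · refine ⟨(j, i, 0), ?_⟩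
      have : t i = t' j := prv_inj (hi.symm.trans hj)
      simp [this]
  refine (Finset.card_le_card hsub).trans (Finset.card_biUnion_le.trans ?_)
  refine (Finset.sum_le_sum (fun x _ => card_fix x.1 _)).trans (le_of_eq ?_)
  rw [Finset.sum_const, Finset.card_univ]
  simp

/-! ### moments of the number of linked quadruples -/

open Classical in
/-- the number of the linked quadruples whose event occurs -/
noncomputable def Y (c : Equiv.Perm (Fin n)) : ℕ := ((W n).filter (fun t => Ev t c)).card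

theorem Y_int (c : Equiv.Perm (Fin n)) : (Y c : ℤ) = ∑ t ∈ W n, if Ev t c then (1 : ℤ) else 0 := by
  classical
  unfold Y
  rw [Finset.card_filter]
  push_cast
  exact Finset.sum_congr rfl fun t _ => by congr

theorem mem_W {t : Fin 4 → Fin n} : t ∈ W n ↔ Linked (t 0) (t 1) (t 2) (t 3) ∧ Sep t := by
  unfold W
  simp

theorem sum_Y : 9 * ∑ c : Equiv.Perm (Fin n), (Y c : ℤ) = (W n).card * n.factorial := by
  simp only [Y_int]
  rw [Finset.sum_comm, Finset.mul_sum]
  rw [Finset.sum_congr rfl (fun t ht => one_Ev t (mem_W.1 ht).2), Finset.sum_const]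
  simp

theorem sum_Y2 : 81 * ∑ c : Equiv.Perm (Fin n), (Y c : ℤ) ^ 2 ≤
    (W n).card ^ 2 * n.factorial + 432 * (W n).card * n ^ 3 * n.factorial := by
  classical
  have e1 : 81 * ∑ c : Equiv.Perm (Fin n), (Y c : ℤ) ^ 2 = ∑ t ∈ W n, ∑ t' ∈ W n,
      81 * ∑ c, (if Ev t c then (if Ev t' c then (1 : ℤ) else 0) else 0) := by
    have e2 : ∀ c : Equiv.Perm (Fin n), 81 * (Y c : ℤ) ^ 2 = ∑ t ∈ W n, ∑ t' ∈ W n,
        81 * (if Ev t c then (if Ev t' c then (1 : ℤ) else 0) else 0) := by
      intro c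
      rw [Y_int, sq, Finset.sum_mul_sum, Finset.mul_sum]
      refine Finset.sum_congr rfl fun t _ => ?_
      rw [Finset.mul_sum]
      refine Finset.sum_congr rfl fun t' _ => ?_
      by_cases g1 : Ev t c <;> by_cases g2 : Ev t' c <;> simp [g1, g2]
    rw [Finset.mul_sum, Finset.sum_congr rfl (fun c _ => e2 c), Finset.sum_comm]
    refine Finset.sum_congr rfl fun t _ => ?_
    rw [Finset.sum_comm]
    refine Finset.sum_congr rfl fun t' _ => ?_
    rw [Finset.mul_sum]
  rw [e1]
  have h1 : ∀ t ∈ W n, ∑ t' ∈ W n, 81 * ∑ c, (if Ev t c then (if Ev t' c then (1 : ℤ) else 0) else 0) ≤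
      (W n).card * n.factorial + 432 * n ^ 3 * n.factorial := by
    intro t ht
    have h2 : ∀ t' ∈ W n, 81 * ∑ c, (if Ev t c then (if Ev t' c then (1 : ℤ) else 0) else 0) ≤
        (n.factorial : ℤ) + (if ¬ ∀ z, Pl t z → ¬ Pl t' z then 9 * (n.factorial : ℤ) else 0) := by
      intro t' ht'
      by_cases hd : ∀ z, Pl t z → ¬ Pl t' z
      · rw [if_neg (not_not.2 hd), two_Ev t t' (mem_W.1 ht).2 (mem_W.1 ht').2 hd, add_zero]
      · rw [if_pos hd]
        have := two_Ev' t t' (mem_W.1 ht).2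
        have h0 : (0 : ℤ) ≤ n.factorial := by positivity
        linarith
    refine (Finset.sum_le_sum h2).trans ?_
    rw [Finset.sum_add_distrib, Finset.sum_const, nsmul_eq_mul]
    refine add_le_add le_rfl ?_
    rw [← Finset.sum_filter, Finset.sum_const, nsmul_eq_mul]
    have h3 : (((W n).filter (fun t' => ¬ ∀ z, Pl t z → ¬ Pl t' z)).card : ℤ) ≤ 48 * n ^ 3 := by
      have h4 := card_meet t
      have h5 : ((W n).filter (fun t' => ¬ ∀ z, Pl t z → ¬ Pl t' z)).card ≤
          (Finset.univ.filter (fun t' : Fin 4 → Fin n => ¬ ∀ z, Pl t z → ¬ Pl t' z)).card :=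
        Finset.card_le_card (Finset.filter_subset_filter _ (Finset.subset_univ _))
      exact_mod_cast h5.trans h4
    have h0 : (0 : ℤ) ≤ n.factorial := by positivity
    calc _ ≤ 48 * (n : ℤ) ^ 3 * (9 * n.factorial) := mul_le_mul_of_nonneg_right h3 (by positivity)
      _ = _ := by ring
  refine (Finset.sum_le_sum h1).trans (le_of_eq ?_)
  rw [Finset.sum_const, nsmul_eq_mul]
  ring

open Classical in
/-- Chebyshev's inequality: for few permutations there are few linked quadruples whose event occurs -/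
theorem few_cols : (Finset.univ.filter (fun c : Equiv.Perm (Fin n) => 18 * Y c < (W n).card)).card *
    (W n).card ≤ 1728 * n ^ 3 * n.factorial := by
  set w := (W n).card with hw
  set B := (Finset.univ.filter (fun c : Equiv.Perm (Fin n) => 18 * Y c < w)) with hB
  rcases Nat.eq_zero_or_pos w with h0 | h0
  · rw [h0]; omega
  have h1 : ∑ c : Equiv.Perm (Fin n), (9 * (Y c : ℤ) - w) ^ 2 ≤
      432 * (w : ℤ) * (n : ℤ) ^ 3 * (n.factorial : ℤ) := by
    have e : ∑ c : Equiv.Perm (Fin n), (9 * (Y c : ℤ) - w) ^ 2 =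
        81 * ∑ c : Equiv.Perm (Fin n), (Y c : ℤ) ^ 2 - 2 * w * (9 * ∑ c : Equiv.Perm (Fin n), (Y c : ℤ)) +
          w ^ 2 * ∑ _c : Equiv.Perm (Fin n), (1 : ℤ) := by
      simp only [Finset.mul_sum]
      rw [← Finset.sum_sub_distrib, ← Finset.sum_add_distrib]
      exact Finset.sum_congr rfl fun c _ => by ring
    rw [e, sum_Y, card_perm_int]
    have := sum_Y2 (n := n)
    rw [← hw] at this ⊢
    nlinarith
  have h2 : (B.card : ℤ) * (w : ℤ) ^ 2 ≤ 4 * ∑ c : Equiv.Perm (Fin n), (9 * (Y c : ℤ) - w) ^ 2 := by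
    rw [Finset.mul_sum]
    calc (B.card : ℤ) * (w : ℤ) ^ 2 = ∑ _c ∈ B, (w : ℤ) ^ 2 := by
          rw [Finset.sum_const, nsmul_eq_mul]
      _ ≤ ∑ c ∈ B, 4 * (9 * (Y c : ℤ) - w) ^ 2 := by
          refine Finset.sum_le_sum fun c hc => ?_
          rw [hB, Finset.mem_filter] at hc
          have h3 : 18 * (Y c : ℤ) < w := by exact_mod_cast hc.2
          nlinarith
      _ ≤ _ := Finset.sum_le_sum_of_subset_of_nonneg (Finset.subset_univ _)
          (fun c _ _ => by positivity)
  have h3 : (B.card : ℤ) * (w : ℤ) * w ≤ 1728 * (n : ℤ) ^ 3 * (n.factorial : ℤ) * w := by nlinarith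
  have h4 : (0 : ℤ) < w := by exact_mod_cast h0
  have h5 := le_of_mul_le_mul_right h3 h4
  exact_mod_cast h5

/-! ### the number of linked quadruples -/

open Classical in
theorem card_prv {i j : Fin 4} (hij : i ≠ j) :
    (Finset.univ.filter (fun t : Fin 4 → Fin n => prv (t i) = t j)).card ≤ n ^ 3 := by
  have h : (Finset.univ.filter (fun t : Fin 4 → Fin n => prv (t i) = t j)).card ≤
      (Finset.univ : Finset ({k : Fin 4 // k ≠ j} → Fin n)).card := by
    refine Finset.card_le_card_of_injOn (fun t k => t k.1) (fun _ _ => Finset.mem_univ _) ?_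
    intro t ht t' ht' he
    simp only [Finset.coe_filter, Finset.mem_univ, true_and, Set.mem_ofPred_eq] at ht ht'
    funext k
    by_cases hk : k = j
    · rw [hk, ← ht, ← ht']
      exact congrArg prv (congrFun he ⟨i, hij⟩)
    · exact congrFun he ⟨k, hk⟩
  refine h.trans (le_of_eq ?_)
  rw [Finset.card_univ, Fintype.card_fun, Fintype.card_fin, Fintype.card_subtype_compl]
  simp

open Classical in
theorem three_inj : 3 * (Finset.univ.filter (fun t : Fin 4 → Fin n =>
    Linked (t 0) (t 1) (t 2) (t 3))).card = n.descFactorial 4 := by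
  have h1 : (Finset.univ.filter (fun t : Fin 4 → Fin n => Linked (t 0) (t 2) (t 1) (t 3))).card =
      (Finset.univ.filter (fun t : Fin 4 → Fin n => Linked (t 0) (t 1) (t 2) (t 3))).card := by
    refine Finset.card_bij (fun t _ => t ∘ (Equiv.swap (1 : Fin 4) 2)) ?_ ?_ ?_
    · intro t ht
      rw [Finset.mem_filter] at ht ⊢
      refine ⟨Finset.mem_univ _, ?_⟩
      have e : ((Equiv.swap (1 : Fin 4) 2) 0 = 0) ∧ ((Equiv.swap (1 : Fin 4) 2) 1 = 2) ∧
        ((Equiv.swap (1 : Fin 4) 2) 2 = 1) ∧ ((Equiv.swap (1 : Fin 4) 2) 3 = 3) := by decide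
      simp only [Function.comp_apply, e.1, e.2.1, e.2.2.1, e.2.2.2]
      exact ht.2
    · intro t _ t' _ h
      exact (Equiv.swap (1 : Fin 4) 2).surjective.injective_comp_right h
    · intro t ht
      refine ⟨t ∘ (Equiv.swap (1 : Fin 4) 2), ?_, ?_⟩
      · rw [Finset.mem_filter] at ht ⊢
        refine ⟨Finset.mem_univ _, ?_⟩
        have e : ((Equiv.swap (1 : Fin 4) 2) 0 = 0) ∧ ((Equiv.swap (1 : Fin 4) 2) 1 = 2) ∧
          ((Equiv.swap (1 : Fin 4) 2) 2 = 1) ∧ ((Equiv.swap (1 : Fin 4) 2) 3 = 3) := by decide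
        simp only [Function.comp_apply, e.1, e.2.1, e.2.2.1, e.2.2.2]
        exact ht.2
      · funext k
        simp
  have h2 : (Finset.univ.filter (fun t : Fin 4 → Fin n => Linked (t 0) (t 3) (t 2) (t 1))).card =
      (Finset.univ.filter (fun t : Fin 4 → Fin n => Linked (t 0) (t 1) (t 2) (t 3))).card := by
    refine Finset.card_bij (fun t _ => t ∘ (Equiv.swap (1 : Fin 4) 3)) ?_ ?_ ?_
    · intro t ht
      rw [Finset.mem_filter] at ht ⊢
      refine ⟨Finset.mem_univ _, ?_⟩
      have e : ((Equiv.swap (1 : Fin 4) 3) 0 = 0) ∧ ((Equiv.swap (1 : Fin 4) 3) 1 = 3) ∧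
        ((Equiv.swap (1 : Fin 4) 3) 2 = 2) ∧ ((Equiv.swap (1 : Fin 4) 3) 3 = 1) := by decide
      simp only [Function.comp_apply, e.1, e.2.1, e.2.2.1, e.2.2.2]
      exact ht.2
    · intro t _ t' _ h
      exact (Equiv.swap (1 : Fin 4) 3).surjective.injective_comp_right h
    · intro t ht
      refine ⟨t ∘ (Equiv.swap (1 : Fin 4) 3), ?_, ?_⟩
      · rw [Finset.mem_filter] at ht ⊢
        refine ⟨Finset.mem_univ _, ?_⟩
        have e : ((Equiv.swap (1 : Fin 4) 3) 0 = 0) ∧ ((Equiv.swap (1 : Fin 4) 3) 1 = 3) ∧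
          ((Equiv.swap (1 : Fin 4) 3) 2 = 2) ∧ ((Equiv.swap (1 : Fin 4) 3) 3 = 1) := by decide
        simp only [Function.comp_apply, e.1, e.2.1, e.2.2.1, e.2.2.2]
        exact ht.2
      · funext k
        simp
  have hinj : ∀ t : Fin 4 → Fin n, Linked (t 0) (t 1) (t 2) (t 3) → Function.Injective t := by
    intro t ht
    obtain ⟨g1, g2, g3, g4, g5, g6⟩ := linked_inj ht
    have e : ∀ i j : Fin 4, i ≠ j → t i ≠ t j := by
      intro i j hij heq
      have he := congrArg Fin.val heq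
      fin_cases i <;> fin_cases j <;> simp_all
    intro i j hij
    by_contra hne
    exact e i j hne hij
  have key : ∀ t : Fin 4 → Fin n, (if Linked (t 0) (t 1) (t 2) (t 3) then (1 : ℤ) else 0) +
      (if Linked (t 0) (t 2) (t 1) (t 3) then 1 else 0) + (if Linked (t 0) (t 3) (t 2) (t 1) then 1 else 0) =
      if Function.Injective t then 1 else 0 := by
    intro t
    by_cases hi : Function.Injective t
    · rw [if_pos hi]
      have hv : ∀ i j : Fin 4, i ≠ j → ((t i : Fin n) : ℕ) ≠ t j := by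
        intro i j hij he
        exact hij (hi (Fin.ext he))
      exact linked_three (hv 0 1 (by decide)) (hv 0 2 (by decide)) (hv 0 3 (by decide)) (hv 1 2 (by decide))
        (hv 1 3 (by decide)) (hv 2 3 (by decide)) 1
    · rw [if_neg hi]
      have k1 : ¬ Linked (t 0) (t 1) (t 2) (t 3) := fun h => hi (hinj t h)
      have k2 : ¬ Linked (t 0) (t 2) (t 1) (t 3) := by
        intro h
        apply hi
        have := hinj (t ∘ (Equiv.swap (1 : Fin 4) 2)) (by
          have e : ((Equiv.swap (1 : Fin 4) 2) 0 = 0) ∧ ((Equiv.swap (1 : Fin 4) 2) 1 = 2) ∧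
            ((Equiv.swap (1 : Fin 4) 2) 2 = 1) ∧ ((Equiv.swap (1 : Fin 4) 2) 3 = 3) := by decide
          simp only [Function.comp_apply, e.1, e.2.1, e.2.2.1, e.2.2.2]
          exact h)
        exact (Function.Injective.of_comp_iff' t (Equiv.swap (1 : Fin 4) 2).bijective).1 this
      have k3 : ¬ Linked (t 0) (t 3) (t 2) (t 1) := by
        intro h
        apply hi
        have := hinj (t ∘ (Equiv.swap (1 : Fin 4) 3)) (by
          have e : ((Equiv.swap (1 : Fin 4) 3) 0 = 0) ∧ ((Equiv.swap (1 : Fin 4) 3) 1 = 3) ∧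
            ((Equiv.swap (1 : Fin 4) 3) 2 = 2) ∧ ((Equiv.swap (1 : Fin 4) 3) 3 = 1) := by decide
          simp only [Function.comp_apply, e.1, e.2.1, e.2.2.1, e.2.2.2]
          exact h)
        exact (Function.Injective.of_comp_iff' t (Equiv.swap (1 : Fin 4) 3).bijective).1 this
      simp [k1, k2, k3]
  have hsum := Finset.sum_congr (rfl : (Finset.univ : Finset (Fin 4 → Fin n)) = Finset.univ)
    (fun t _ => key t)
  rw [Finset.sum_add_distrib, Finset.sum_add_distrib, Finset.sum_boole, Finset.sum_boole,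
    Finset.sum_boole, Finset.sum_boole, card_inj] at hsum
  rw [Fintype.card_fin] at hsum
  have h3 : (Finset.univ.filter (fun t : Fin 4 → Fin n => Linked (t 0) (t 1) (t 2) (t 3))).card +
    (Finset.univ.filter (fun t : Fin 4 → Fin n => Linked (t 0) (t 2) (t 1) (t 3))).card +
    (Finset.univ.filter (fun t : Fin 4 → Fin n => Linked (t 0) (t 3) (t 2) (t 1))).card =
      n.descFactorial 4 := by exact_mod_cast hsum
  rw [h1, h2] at h3
  omega

theorem W_ge (hn : 168 ≤ n) : n ^ 4 ≤ 4 * (W n).card := by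
  classical
  have h1 := three_inj (n := n)
  have hsub : (Finset.univ.filter (fun t : Fin 4 → Fin n => Linked (t 0) (t 1) (t 2) (t 3))) ⊆
      W n ∪ ((Finset.univ : Finset (Fin 4 × Fin 4)).filter (fun x => x.1 ≠ x.2)).biUnion (fun x =>
        Finset.univ.filter (fun t : Fin 4 → Fin n => prv (t x.1) = t x.2)) := by
    intro t ht
    rw [Finset.mem_filter] at ht
    by_cases hs : Sep t
    · exact Finset.mem_union_left _ (mem_W.2 ⟨ht.2, hs⟩)
    · apply Finset.mem_union_right
      simp only [Finset.mem_biUnion, Finset.mem_univ, true_and, Finset.mem_filter]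
      have h2 : ∃ i j, prv (t i) = t j := by
        by_contra hne
        push Not at hne
        apply hs
        refine ⟨?_, hne⟩
        obtain ⟨g1, g2, g3, g4, g5, g6⟩ := linked_inj ht.2
        intro i j hij heq
        have he := congrArg Fin.val heq
        fin_cases i <;> fin_cases j <;> simp_all
      obtain ⟨i, j, hij⟩ := h2
      refine ⟨(i, j), ?_, hij⟩
      rintro (rfl : i = j)
      have h3 := congrArg Fin.val hij
      rw [prv_val] at h3
      have := (t i).2
      split_ifs at h3 <;> omega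
  have h2 := Finset.card_le_card hsub
  have h3 : (((Finset.univ : Finset (Fin 4 × Fin 4)).filter (fun x => x.1 ≠ x.2)).biUnion (fun x =>
        Finset.univ.filter (fun t : Fin 4 → Fin n => prv (t x.1) = t x.2))).card ≤ 12 * n ^ 3 := by
    refine Finset.card_biUnion_le.trans ?_
    refine (Finset.sum_le_sum (g := fun _ => n ^ 3) (fun x hx => card_prv (Finset.mem_filter.1 hx).2)).trans ?_
    rw [Finset.sum_const, smul_eq_mul]
    exact Nat.mul_le_mul_right _ (by decide)
  have h4 := Finset.card_union_le (W n) (((Finset.univ : Finset (Fin 4 × Fin 4)).filter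
    (fun x => x.1 ≠ x.2)).biUnion (fun x =>
        Finset.univ.filter (fun t : Fin 4 → Fin n => prv (t x.1) = t x.2)))
  have h5 : n ^ 4 ≤ n.descFactorial 4 + 6 * n ^ 3 := by
    obtain ⟨k, rfl⟩ : ∃ k, n = k + 3 := ⟨n - 3, by omega⟩
    have e : (k + 3).descFactorial 4 = (k + 3) * ((k + 2) * ((k + 1) * k)) := by
      simp [Nat.descFactorial]
      ring
    rw [e]
    nlinarith [sq_nonneg k, Nat.zero_le (k ^ 3)]
  have h6 : 168 * n ^ 3 ≤ n ^ 4 := by
    calc 168 * n ^ 3 ≤ n * n ^ 3 := Nat.mul_le_mul_right _ hn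
      _ = n ^ 4 := by ring
  omega

end Pool.Agent.V8H81.Rnd
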