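import Pool.Agent.R811.Cross.Comb

set_option autoImplicit false

/-! Level sets of functions on the cube which are quadratic in some of the variables. -/

namespace Pool.Agent.V8H81.Rnd

open Finset Pool.Agent.R811.Cross

variable {ι : Type} [Fintype ι] [DecidableEq ι]

/-- Anticoncentration of a function on the cube whose second differences in the directions of a set of
variables are constant. -/
theorem level' (F : (ι → Bool) → ℤ) (c : ℤ) {ν : ℕ} (u w : Fin ν → ι)
    (hinj : Function.Injective (Sum.elim u w))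
    (h3 : ∀ i j, (∃ k, Sum.elim u w k = i) → (∃ k, Sum.elim u w k = j) → i ≠ j →
      ∀ x y, D j (D i F) x = D j (D i F) y)
    (hne : ∀ k x, D (u k) (D (w k) F) x ≠ 0) :
    (ν : ℤ) * ((Finset.univ.filter (fun x => F x = c)).card : ℤ) ^ 4 ≤
      162 * 16 ^ Fintype.card ι := by
  classical
  set L : ℤ := ((Finset.univ.filter (fun x => F x = c)).card : ℤ) with hL
  have hL0 : 0 ≤ L := by positivity
  set S : Finset ι := Finset.univ.image (Sum.elim u w) with hS
  have hmem : ∀ i ∈ S, ∃ k, Sum.elim u w k = i := by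
    intro i hi
    rw [hS, Finset.mem_image] at hi
    obtain ⟨k, _, hk⟩ := hi
    exact ⟨k, hk⟩
  have hcard : S.card = 2 * ν := by
    rw [hS, Finset.card_image_of_injective _ hinj, Finset.card_univ, Fintype.card_sum,
      Fintype.card_fin]
    ring
  have hsum : ∑ i ∈ S, bd i F c = ∑ k, (bd (u k) F c + bd (w k) F c) := by
    rw [hS, Finset.sum_image (fun a _ b _ hab => hinj hab), Fintype.sum_sum_type,
      Finset.sum_add_distrib]
    rfl
  have h1 : 4 * (ν * L) ≤ 3 * ∑ i ∈ S, bd i F c := by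
    rw [hsum, Finset.mul_sum]
    have : ∀ k : Fin ν, 4 * L ≤ 3 * (bd (u k) F c + bd (w k) F c) := by
      intro k
      have huw : u k ≠ w k := fun h => by
        have := hinj (a₁ := Sum.inl k) (a₂ := Sum.inr k) h
        cases this
      exact pair_bd F c (fun x => DD_flip huw F c x (hne k x))
    calc 4 * (ν * L) = ∑ _k : Fin ν, 4 * L := by
          rw [Finset.sum_const, Finset.card_univ, Fintype.card_fin, nsmul_eq_mul]; ring
      _ ≤ _ := Finset.sum_le_sum fun k _ => this k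
  set A := ∑ i ∈ S, inf i (fun x => sn (F x - c)) with hA
  set B := ∑ i ∈ S, inf i (fun x => sn (F x - (c + 1))) with hB
  have h2 : ∑ i ∈ S, bd i F c ≤ A + B := by
    rw [hA, hB, ← Finset.sum_add_distrib]
    exact Finset.sum_le_sum fun i _ => bd_le i F c
  have qA : A ^ 4 ≤ 4 * 16 ^ Fintype.card ι * (S.card : ℤ) ^ 3 := by
    refine quad S (fun x => F x - c) ?_
    intro i hi j hj hij x y
    rw [D_sub_const]
    exact h3 i j (hmem i hi) (hmem j hj) hij x y
  have qB : B ^ 4 ≤ 4 * 16 ^ Fintype.card ι * (S.card : ℤ) ^ 3 := by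
    refine quad S (fun x => F x - (c + 1)) ?_
    intro i hi j hj hij x y
    rw [D_sub_const]
    exact h3 i j (hmem i hi) (hmem j hj) hij x y
  have hA0 : 0 ≤ A := Finset.sum_nonneg fun i _ => inf_nonneg i _
  have hB0 : 0 ≤ B := Finset.sum_nonneg fun i _ => inf_nonneg i _
  have hAB : (A + B) ^ 4 ≤ 16 * (4 * 16 ^ Fintype.card ι * (S.card : ℤ) ^ 3) := by
    have e1 : (A + B) ^ 4 ≤ 8 * (A ^ 4 + B ^ 4) := by
      nlinarith [sq_nonneg (A - B), sq_nonneg (A + B), sq_nonneg (A ^ 2 - B ^ 2),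
        sq_nonneg (A ^ 2 + B ^ 2), mul_nonneg hA0 hB0, sq_nonneg ((A - B) * (A + B)),
        sq_nonneg ((A - B) ^ 2)]
    linarith
  have h5 : 4 * (ν * L) ≤ 3 * (A + B) := h1.trans (by linarith)
  have h6 : (4 * ((ν : ℤ) * L)) ^ 4 ≤ (3 * (A + B)) ^ 4 :=
    pow_le_pow_left₀ (by positivity) h5 4
  have hc : (S.card : ℤ) = 2 * ν := by rw [hcard]; push_cast; ring
  rw [hc] at hAB
  set E : ℤ := 16 ^ Fintype.card ι with hE
  have h7 : 256 * ((ν : ℤ) ^ 3 * (ν * L ^ 4)) ≤ 256 * ((ν : ℤ) ^ 3 * (162 * E)) := by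
    calc 256 * ((ν : ℤ) ^ 3 * (ν * L ^ 4)) = (4 * ((ν : ℤ) * L)) ^ 4 := by ring
      _ ≤ (3 * (A + B)) ^ 4 := h6
      _ = 81 * (A + B) ^ 4 := by ring
      _ ≤ 81 * (16 * (4 * E * (2 * (ν : ℤ)) ^ 3)) := by linarith
      _ = 256 * ((ν : ℤ) ^ 3 * (162 * E)) := by ring
  rcases Nat.eq_zero_or_pos ν with h0 | h0
  · rw [h0]; simp only [Nat.cast_zero, zero_mul]; positivity
  · have h8 : (0 : ℤ) < (ν : ℤ) ^ 3 := by positivity
    have h9 := le_of_mul_le_mul_left h7 (by norm_num)
    exact le_of_mul_le_mul_left h9 h8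

end Pool.Agent.V8H81.Rnd
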