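import Pool.Agent.R811.Cross.Main
import Pool.Agent.V8H81.Rnd.Level

set_option autoImplicit false

/-! Closed curves consisting of strands at different heights. -/

namespace Pool.Agent.V8H81.Rnd

open Finset LaurentPolynomial Pool.Agent.H891R2.Jones Pool.Agent.H832R3.VJ Pool.Agent.R811
open Pool.Agent.R811.Cross hiding sg

/-- The shadow of a closed curve which consists of `n` successive strands: the passages through the
double points are numbered `0, …, 2 N - 1` in the order in which one runs through them, the passage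
number `e` (between the edges `e` and `next e`) is on the strand `strand e`; first one runs along the
strand `0`, then along the strand `1`, and so on.  The strands have no self-crossings. -/
structure Layered (n N : ℕ) extends Shadow N where
  strand : Fin (2 * N) → Fin n
  mono : Monotone strand
  ne : ∀ i, strand (p i) ≠ strand (q i)

namespace Layered

variable {n N : ℕ} (L : Layered n N)

/-- the crossing at the double point `i`, if the strand `a` runs at the height `h a` -/
def crossingAt (h : Equiv.Perm (Fin n)) (i : Fin N) : Crossing (Fin (2 * N)) :=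
  if h (L.strand (L.p i)) < h (L.strand (L.q i)) then L.crossing i else switch (L.crossing i)

/-- the knot diagram obtained from the curve if the strand `a` runs at the height `h a` -/
def lift (h : Equiv.Perm (Fin n)) : Diagram (Fin (2 * N)) :=
  ⟨[], (List.finRange N).map (L.crossingAt h)⟩

/-- the signs of the crossings -/
noncomputable def S (h : Equiv.Perm (Fin n)) (i : Fin N) : Bool :=
  if h (L.strand (L.p i)) < h (L.strand (L.q i)) then decide ((L.crossing i).sign = 1)
  else !decide ((L.crossing i).sign = 1)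

theorem choice_S (h : Equiv.Perm (Fin n)) (i : Fin N) : L.choice i (L.S h i) = L.crossingAt h i := by
  unfold Shadow.choice S crossingAt positive negative
  by_cases h1 : h (L.strand (L.p i)) < h (L.strand (L.q i)) <;>
    by_cases h2 : (L.crossing i).sign = 1 <;> simp [h1, h2]

theorem lift_eq (h : Equiv.Perm (Fin n)) : L.lift h = L.diagram (L.S h) := by
  unfold lift Shadow.diagram
  congr 1
  apply List.map_congr_left
  intro i _
  exact (choice_S L h i).symm

end Layered

/-! ### exchanging heights -/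

/-- the bit `k`, `false` for `k ≥ m` -/
def bit {m : ℕ} (ε : Fin m → Bool) (k : ℕ) : Bool := if h : k < m then ε ⟨k, h⟩ else false

/-- exchange `2 k` and `2 k + 1` for all `k` with `ε k = true` -/
def fl {m : ℕ} (ε : Fin m → Bool) (x : ℕ) : ℕ := if bit ε (x / 2) then 2 * (x / 2) + (1 - x % 2) else x

variable {m : ℕ} (ε : Fin m → Bool)

theorem fl_div (x : ℕ) : fl ε x / 2 = x / 2 := by
  unfold fl
  split_ifs <;> omega

theorem fl_pos {x : ℕ} (hb : bit ε (x / 2) = true) : fl ε x = 2 * (x / 2) + (1 - x % 2) := by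
  unfold fl; rw [if_pos hb]

theorem fl_neg {x : ℕ} (hb : ¬ bit ε (x / 2) = true) : fl ε x = x := by
  unfold fl; rw [if_neg hb]

theorem fl_fl (x : ℕ) : fl ε (fl ε x) = x := by
  have h := fl_div ε x
  by_cases hb : bit ε (x / 2) = true
  · have hb' : bit ε (fl ε x / 2) = true := by rw [h]; exact hb
    rw [fl_pos ε hb', fl_pos ε hb]
    omega
  · rw [fl_neg ε hb, fl_neg ε hb]

theorem fl_lt_fl {x y : ℕ} (_hxy : x ≠ y) :
    fl ε x < fl ε y ↔ (if x / 2 = y / 2 ∧ bit ε (x / 2) = true then y < x else x < y) := by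
  by_cases h : x / 2 = y / 2
  · by_cases hb : bit ε (x / 2) = true
    · rw [fl_pos ε hb, fl_pos ε (h ▸ hb), if_pos ⟨h, hb⟩]
      omega
    · rw [fl_neg ε hb, fl_neg ε (h ▸ hb), if_neg (fun c => hb c.2)]
  · rw [if_neg (fun c => h c.1)]
    unfold fl
    split_ifs <;> omega

theorem bit_lt {k : ℕ} (h : bit ε k = true) : k < m := by
  unfold bit at h
  split_ifs at h with h1
  exact h1

theorem fl_lt {n x : ℕ} (hm : 2 * m ≤ n) (hx : x < n) : fl ε x < n := by
  unfold fl
  split_ifs with h
  · have := bit_lt ε h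
    omega
  · exact hx

/-- the permutation of the heights -/
def flE {n : ℕ} (hm : 2 * m ≤ n) : Equiv.Perm (Fin n) where
  toFun x := ⟨fl ε x, fl_lt ε hm x.2⟩
  invFun x := ⟨fl ε x, fl_lt ε hm x.2⟩
  left_inv x := Fin.ext (fl_fl ε x)
  right_inv x := Fin.ext (fl_fl ε x)

theorem flE_val {n : ℕ} (hm : 2 * m ≤ n) (x : Fin n) : (flE ε hm x : ℕ) = fl ε x := rfl

theorem bit_update_same (k : Fin m) (b : Bool) : bit (Function.update ε k b) k = b := by
  unfold bit
  rw [dif_pos k.2]
  simp

theorem bit_update_ne (k : Fin m) (b : Bool) {l : ℕ} (h : l ≠ k) :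
    bit (Function.update ε k b) l = bit ε l := by
  unfold bit
  split_ifs with h1
  · rw [Function.update_of_ne]
    intro e
    exact h (congrArg Fin.val e)
  · rfl

namespace Layered

variable {n N : ℕ} (L : Layered n N) (h : Equiv.Perm (Fin n)) (hm : 2 * m ≤ n)

/-- the crossing `i` is the only one whose strands are at the heights `2 k` and `2 k + 1` -/
def Only (k : ℕ) (i : Fin N) : Prop :=
  ((h (L.strand (L.p i)) : ℕ) / 2 = k ∧ (h (L.strand (L.q i)) : ℕ) / 2 = k) ∧
    ∀ j, (h (L.strand (L.p j)) : ℕ) / 2 = k ∧ (h (L.strand (L.q j)) : ℕ) / 2 = k → j = i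

theorem ite_flip (d c : Bool) (P P' : Prop) [Decidable P] [Decidable P']
    (h : P' ↔ (if c = true then ¬ P else P)) :
    (if P' then d else !d) = xor (if P then d else !d) c := by
  cases c
  · simp only [Bool.false_eq_true, if_false] at h
    by_cases hP : P
    · rw [if_pos hP, if_pos (h.2 hP)]; simp
    · rw [if_neg hP, if_neg (fun x => hP (h.1 x))]; simp
  · simp only [if_true] at h
    by_cases hP : P
    · rw [if_pos hP, if_neg (fun x => (h.1 x) hP)]; simp
    · rw [if_neg hP, if_pos (h.2 hP)]; simp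

theorem S_flip (i : Fin N) : L.S (h.trans (flE ε hm)) i =
    xor (L.S h i) (decide ((h (L.strand (L.p i)) : ℕ) / 2 = (h (L.strand (L.q i)) : ℕ) / 2) &&
      bit ε ((h (L.strand (L.p i)) : ℕ) / 2)) := by
  have hne : (h (L.strand (L.p i)) : ℕ) ≠ (h (L.strand (L.q i)) : ℕ) := by
    intro e
    exact L.ne i (h.injective (Fin.ext e))
  have key := fl_lt_fl ε hne
  unfold S
  apply ite_flip
  rw [Equiv.trans_apply, Equiv.trans_apply, Fin.lt_def, Fin.lt_def, flE_val, flE_val, key]
  have e : ((h (L.strand (L.q i)) : ℕ) < h (L.strand (L.p i))) ↔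
      ¬ ((h (L.strand (L.p i)) : ℕ) < h (L.strand (L.q i))) := by omega
  by_cases hc : (h (L.strand (L.p i)) : ℕ) / 2 = (h (L.strand (L.q i)) : ℕ) / 2 ∧
      bit ε ((h (L.strand (L.p i)) : ℕ) / 2) = true
  · rw [if_pos hc, if_pos (by rw [Bool.and_eq_true, decide_eq_true_eq]; exact hc)]
    exact e
  · rw [if_neg hc, if_neg (by rw [Bool.and_eq_true, decide_eq_true_eq]; exact hc)]

theorem S_update (ε : Fin m → Bool) {k : Fin m} {i : Fin N} (hi : L.Only h k i) (b : Bool) :
    L.S (h.trans (flE (Function.update ε k b) hm)) =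
      Function.update (L.S (h.trans (flE ε hm))) i (xor (L.S h i) b) := by
  funext j
  by_cases hj : j = i
  · subst hj
    rw [Function.update_self, S_flip]
    have h1 := hi.1
    rw [h1.1, h1.2, bit_update_same]
    simp
  · rw [Function.update_of_ne hj, S_flip, S_flip]
    by_cases h2 : (h (L.strand (L.p j)) : ℕ) / 2 = (h (L.strand (L.q j)) : ℕ) / 2
    · have h3 : (h (L.strand (L.p j)) : ℕ) / 2 ≠ k := by
        intro e
        exact hj (hi.2 j ⟨e, h2 ▸ e⟩)
      rw [bit_update_ne ε k b h3]
    · simp [h2]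

theorem D_lift {k : Fin m} {i : Fin N} (hi : L.Only h k i) (H : (Fin N → Bool) → ℤ) :
    D k (fun ε => H (L.S (h.trans (flE ε hm)))) =
      fun ε => Cross.sg (!(L.S h i)) * D i H (L.S (h.trans (flE ε hm))) := by
  funext ε
  unfold D
  simp only
  rw [S_update L h hm ε hi, S_update L h hm ε hi]
  cases L.S h i
  · simp [Cross.sg]
  · simp [Cross.sg]

theorem only_ne {k l : ℕ} (hkl : k ≠ l) {i j : Fin N} (hi : L.Only h k i) (hj : L.Only h l j) :
    i ≠ j := by
  intro e
  subst e
  exact hkl (hi.1.1.symm.trans hj.1.1)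

/-- the second moment of the polynomial of the diagram -/
theorem F_lift : F L.toShadow (L.S h) = moment 2 (L.lift h).fPoly := by
  unfold F
  rw [lift_eq]

/-- The exchanges of the heights `2 k` and `2 k + 1`: anticoncentration. -/
theorem cube {ν : ℕ} (u w : Fin ν → Fin m) (hinj : Function.Injective (Sum.elim u w))
    (iu iw : Fin ν → Fin N) (hu : ∀ k, L.Only h (u k) (iu k)) (hw : ∀ k, L.Only h (w k) (iw k))
    (hint : ∀ k, L.Interlaced (iw k) (iu k)) (c : ℤ) :
    (ν : ℤ) * ((Finset.univ.filter (fun ε : Fin m → Bool =>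
      moment 2 (L.lift (h.trans (flE ε hm))).fPoly = c)).card : ℤ) ^ 4 ≤ 162 * 16 ^ m := by
  have key := level' (fun ε : Fin m → Bool => F L.toShadow (L.S (h.trans (flE ε hm)))) c u w hinj ?_ ?_
  · rw [Fintype.card_fin] at key
    simp only [F_lift] at key
    exact key
  · rintro i j ⟨k, hk⟩ ⟨l, hl⟩ hij x y
    have hex : ∀ k : Fin ν ⊕ Fin ν, ∃ z, L.Only h ((Sum.elim u w k : Fin m) : ℕ) z := by
      rintro (k | k)
      · exact ⟨iu k, hu k⟩
      · exact ⟨iw k, hw k⟩
    obtain ⟨z, hz⟩ := hex k
    obtain ⟨z', hz'⟩ := hex l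
    rw [hk] at hz
    rw [hl] at hz'
    have hne : z ≠ z' := only_ne L h (fun e => hij (Fin.ext e)) hz hz'
    rw [D_lift L h hm hz]
    have e := D_lift L h hm hz' (fun x => Cross.sg (!(L.S h z)) * D z (F L.toShadow) x)
    rw [congrFun e x, congrFun e y]
    have e2 : ∀ x, D z' (fun x => Cross.sg (!(L.S h z)) * D z (F L.toShadow) x) x =
        Cross.sg (!(L.S h z)) * D z' (D z (F L.toShadow)) x := by
      intro x
      unfold D
      ring
    rw [e2, e2, D2_const L.toShadow hne _ (L.S (h.trans (flE y hm)))]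
  · intro k x
    rw [D_lift L h hm (hw k)]
    have e := congrFun (D_lift L h hm (hu k)
      (fun x => Cross.sg (!(L.S h (iw k))) * D (iw k) (F L.toShadow) x)) x
    rw [e]
    have e2 : ∀ x, D (iu k) (fun x => Cross.sg (!(L.S h (iw k))) * D (iw k) (F L.toShadow) x) x =
        Cross.sg (!(L.S h (iw k))) * D (iu k) (D (iw k) (F L.toShadow)) x := by
      intro x
      unfold D
      ring
    rw [e2]
    have h1 : ∀ b, Cross.sg b ≠ 0 := by intro b; cases b <;> decide
    exact mul_ne_zero (h1 _) (mul_ne_zero (h1 _) (D2 L.toShadow (hint k) _))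

end Layered

end Pool.Agent.V8H81.Rnd
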