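import Pool.Agent.V8H81.Rnd.Perm
import Pool.Agent.V8H81.Rnd.Blocks

set_option autoImplicit false

/-! The number of the good blocks of a random permutation: second moment method. -/

namespace Pool.Agent.V8H81.Rnd

open Finset

variable {n : ℕ}

open Classical in
/-- the number of the blocks of places where the permutation has the property -/
noncomputable def cnt (P : (Fin 4 → Fin n) → Prop) (τ : Equiv.Perm (Fin n)) : ℕ :=
  (Finset.univ.filter (fun g : Fin (n / 4) => P (fun j => τ (block g j)))).card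

theorem block_inj (g : Fin (n / 4)) : Function.Injective (block g) := by
  intro i j h
  have := congrArg Fin.val h
  simp only [block] at this
  exact Fin.ext (by omega)

theorem block_inj2 {g g' : Fin (n / 4)} (hg : g ≠ g') :
    Function.Injective (Sum.elim (block g) (block g')) := by
  have hne : (g : ℕ) ≠ g' := fun e => hg (Fin.ext e)
  rintro (i | i) (j | j) h
  · rw [block_inj g h]
  · have := congrArg Fin.val h
    simp only [Sum.elim_inl, Sum.elim_inr, block] at this
    have := i.2
    have := j.2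
    omega
  · have := congrArg Fin.val h
    simp only [Sum.elim_inl, Sum.elim_inr, block] at this
    have := i.2
    have := j.2
    omega
  · rw [block_inj g' h]

variable (P : (Fin 4 → Fin n) → Prop) (hP : ∀ t, P t → Function.Injective t)

include hP

open Classical in
theorem first_moment : n.descFactorial 4 * ∑ τ, cnt P τ =
    n.factorial * ((n / 4) * (Finset.univ.filter P).card) := by
  have e : ∑ τ, cnt P τ = ∑ g : Fin (n / 4),
      (Finset.univ.filter (fun τ : Equiv.Perm (Fin n) => P (fun j => τ (block g j)))).card := by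
    unfold cnt
    simp only [Finset.card_filter]
    rw [Finset.sum_comm]
  rw [e, Finset.mul_sum]
  have h : ∀ g : Fin (n / 4), n.descFactorial 4 *
      (Finset.univ.filter (fun τ : Equiv.Perm (Fin n) => P (fun j => τ (block g j)))).card =
      n.factorial * (Finset.univ.filter P).card := by
    intro g
    have := card_prop' (block g) (block_inj g) P hP
    rw [Fintype.card_fin] at this
    exact this
  rw [Finset.sum_congr rfl (fun g _ => h g), Finset.sum_const, Finset.card_univ, Fintype.card_fin,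
    smul_eq_mul]
  ring

open Classical in
theorem two_blocks {g g' : Fin (n / 4)} (hg : g ≠ g') : n.descFactorial 8 *
    (Finset.univ.filter (fun τ : Equiv.Perm (Fin n) => P (fun j => τ (block g j)) ∧
      P (fun j => τ (block g' j)))).card ≤ n.factorial * (Finset.univ.filter P).card ^ 2 := by
  obtain ⟨Q, hQ⟩ : ∃ Q : (Fin 4 ⊕ Fin 4 → Fin n) → Prop, ∀ t, Q t ↔ (Function.Injective t ∧
    P (fun j => t (Sum.inl j)) ∧ P (fun j => t (Sum.inr j))) := ⟨_, fun t => Iff.rfl⟩
  have h := card_prop' (Sum.elim (block g) (block g')) (block_inj2 hg) Q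
    (fun t ht => ((hQ t).1 ht).1)
  rw [Fintype.card_sum, Fintype.card_fin] at h
  have e1 : (Finset.univ.filter (fun τ : Equiv.Perm (Fin n) =>
      Q (fun k => τ (Sum.elim (block g) (block g') k)))) =
      (Finset.univ.filter (fun τ : Equiv.Perm (Fin n) => P (fun j => τ (block g j)) ∧
      P (fun j => τ (block g' j)))) := by
    ext τ
    simp only [Finset.mem_filter, Finset.mem_univ, true_and, hQ, Sum.elim_inl, Sum.elim_inr]
    constructor
    · rintro ⟨_, h1, h2⟩
      exact ⟨h1, h2⟩
    · rintro ⟨h1, h2⟩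
      exact ⟨τ.injective.comp (block_inj2 hg), h1, h2⟩
  have e2 : (Finset.univ.filter Q).card ≤ (Finset.univ.filter P).card ^ 2 := by
    rw [sq, ← Finset.card_product]
    refine Finset.card_le_card_of_injOn
      (fun t => (fun j => t (Sum.inl j), fun j => t (Sum.inr j))) ?_ ?_
    · intro t ht
      rw [Finset.mem_coe, Finset.mem_filter] at ht
      rw [Finset.mem_coe, Finset.mem_product, Finset.mem_filter, Finset.mem_filter]
      have h2 := (hQ t).1 ht.2
      exact ⟨⟨Finset.mem_univ _, h2.2.1⟩, ⟨Finset.mem_univ _, h2.2.2⟩⟩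
    · intro t _ t' _ h
      rw [Prod.mk.injEq] at h
      funext k
      rcases k with j | j
      · exact congrFun h.1 j
      · exact congrFun h.2 j
  rw [e1] at h
  calc _ = _ := h
    _ ≤ _ := Nat.mul_le_mul_left _ e2

open Classical in
/-- second moment, divided by `n!` -/
theorem second_moment (hn : 8 ≤ n) :
    (∑ τ, (cnt P τ : ℝ) ^ 2) / n.factorial ≤
      ((n / 4 : ℕ) : ℝ) * (Finset.univ.filter P).card / n.descFactorial 4 +
        (((n / 4 : ℕ) : ℝ) * (Finset.univ.filter P).card) ^ 2 / n.descFactorial 8 := by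
  have hf : (0 : ℝ) < n.factorial := by exact_mod_cast n.factorial_pos
  have h4 : (0 : ℝ) < n.descFactorial 4 := by
    exact_mod_cast Nat.descFactorial_pos.2 (by omega)
  have h8 : (0 : ℝ) < n.descFactorial 8 := by
    exact_mod_cast Nat.descFactorial_pos.2 (by omega)
  set γ : ℝ := ((Finset.univ.filter P).card : ℝ) with hγ
  have e : ∑ τ, (cnt P τ : ℝ) ^ 2 = ∑ g : Fin (n / 4), ∑ g' : Fin (n / 4),
      ((Finset.univ.filter (fun τ : Equiv.Perm (Fin n) => P (fun j => τ (block g j)) ∧
      P (fun j => τ (block g' j)))).card : ℝ) := by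
    have e1 : ∀ τ : Equiv.Perm (Fin n), (cnt P τ : ℝ) ^ 2 = ∑ g : Fin (n / 4), ∑ g' : Fin (n / 4),
        (if (P (fun j => τ (block g j)) ∧ P (fun j => τ (block g' j))) then (1 : ℝ) else 0) := by
      intro τ
      unfold cnt
      rw [Finset.card_filter]
      push_cast
      rw [sq, Finset.sum_mul_sum]
      refine Finset.sum_congr rfl fun g _ => Finset.sum_congr rfl fun g' _ => ?_
      by_cases h1 : P (fun j => τ (block g j)) <;> by_cases h2 : P (fun j => τ (block g' j)) <;>
        simp [h1, h2]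
    simp only [e1]
    rw [Finset.sum_comm]
    refine Finset.sum_congr rfl fun g _ => ?_
    rw [Finset.sum_comm]
    refine Finset.sum_congr rfl fun g' _ => ?_
    rw [Finset.card_filter]
    push_cast
    rfl
  rw [e, div_le_iff₀ hf]
  have hd : ∀ g g' : Fin (n / 4), ((Finset.univ.filter (fun τ : Equiv.Perm (Fin n) =>
      P (fun j => τ (block g j)) ∧ P (fun j => τ (block g' j)))).card : ℝ) ≤
      (if g = g' then n.factorial * γ / n.descFactorial 4 else 0) +
        n.factorial * γ ^ 2 / n.descFactorial 8 := by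
    intro g g'
    by_cases hg : g = g'
    · subst hg
      rw [if_pos rfl]
      have h1 := card_prop' (block g) (block_inj g) P hP
      rw [Fintype.card_fin] at h1
      have h2 : ((Finset.univ.filter (fun τ : Equiv.Perm (Fin n) => P (fun j => τ (block g j)) ∧
          P (fun j => τ (block g j)))).card : ℝ) = n.factorial * γ / n.descFactorial 4 := by
        rw [eq_div_iff h4.ne', mul_comm]
        simp only [and_self]
        rw [hγ]
        exact_mod_cast h1
      rw [h2]
      have : (0 : ℝ) ≤ n.factorial * γ ^ 2 / n.descFactorial 8 := by positivity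
      linarith
    · rw [if_neg hg, zero_add, le_div_iff₀ h8, mul_comm]
      have h1 := two_blocks P hP hg
      rw [hγ]
      exact_mod_cast h1
  calc _ ≤ ∑ g : Fin (n / 4), ∑ g' : Fin (n / 4),
        ((if g = g' then n.factorial * γ / n.descFactorial 4 else 0) +
        n.factorial * γ ^ 2 / n.descFactorial 8) :=
        Finset.sum_le_sum fun g _ => Finset.sum_le_sum fun g' _ => hd g g'
    _ = _ := by
        simp only [Finset.sum_add_distrib, Finset.sum_ite_eq, Finset.mem_univ, if_true,
          Finset.sum_const, Finset.card_univ, Fintype.card_fin, nsmul_eq_mul]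
        ring

omit hP in
theorem desc_ratio (hn : 39 ≤ n) : ((n.descFactorial 4 : ℕ) : ℝ) ^ 2 ≤
    (1 + 24 / n) * n.descFactorial 8 := by
  have e4 : ((n.descFactorial 4 : ℕ) : ℝ) = n * (n - 1) * (n - 2) * (n - 3) := by
    simp only [Nat.descFactorial_succ, Nat.descFactorial_zero, mul_one]
    push_cast [Nat.cast_sub (show 1 ≤ n by omega), Nat.cast_sub (show 2 ≤ n by omega),
      Nat.cast_sub (show 3 ≤ n by omega), Nat.cast_sub (show 0 ≤ n by omega)]
    ring
  have e8 : ((n.descFactorial 8 : ℕ) : ℝ) =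
      n * (n - 1) * (n - 2) * (n - 3) * ((n - 4) * (n - 5) * (n - 6) * (n - 7)) := by
    simp only [Nat.descFactorial_succ, Nat.descFactorial_zero, mul_one]
    push_cast [Nat.cast_sub (show 1 ≤ n by omega), Nat.cast_sub (show 2 ≤ n by omega),
      Nat.cast_sub (show 3 ≤ n by omega), Nat.cast_sub (show 0 ≤ n by omega),
      Nat.cast_sub (show 4 ≤ n by omega), Nat.cast_sub (show 5 ≤ n by omega),
      Nat.cast_sub (show 6 ≤ n by omega), Nat.cast_sub (show 7 ≤ n by omega)]
    ring
  rw [e4, e8]
  have hx : (39 : ℝ) ≤ n := by exact_mod_cast hn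
  generalize (n : ℝ) = x at hx
  have hpos : 0 < x * (x - 1) * (x - 2) * (x - 3) := by
    have h1 : 0 < x := by linarith
    have h2 : 0 < x - 1 := by linarith
    have h3 : 0 < x - 2 := by linarith
    have h4 : 0 < x - 3 := by linarith
    positivity
  have key : x * (x - 1) * (x - 2) * (x - 3) ≤ (1 + 24 / x) * ((x - 4) * (x - 5) * (x - 6) * (x - 7)) := by
    rw [one_add_div (by linarith : x ≠ 0), div_mul_eq_mul_div, le_div_iff₀ (by linarith)]
    obtain ⟨y, rfl⟩ : ∃ y, x = y + 39 := ⟨x - 39, by ring⟩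
    have hy : 0 ≤ y := by linarith
    ring_nf
    nlinarith [pow_nonneg hy 2, pow_nonneg hy 3, pow_nonneg hy 4, pow_nonneg hy 5]
  calc (x * (x - 1) * (x - 2) * (x - 3)) ^ 2 = (x * (x - 1) * (x - 2) * (x - 3)) *
        (x * (x - 1) * (x - 2) * (x - 3)) := by ring
    _ ≤ (x * (x - 1) * (x - 2) * (x - 3)) * ((1 + 24 / x) * ((x - 4) * (x - 5) * (x - 6) * (x - 7))) :=
        mul_le_mul_of_nonneg_left key hpos.le
    _ = _ := by ring

open Classical in
theorem card_le_desc : (Finset.univ.filter P).card ≤ n.descFactorial 4 := by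
  have h := card_inj (n := n) (K := Fin 4)
  rw [Fintype.card_fin] at h
  rw [← h]
  apply Finset.card_le_card
  intro t ht
  rw [Finset.mem_filter] at ht ⊢
  exact ⟨Finset.mem_univ _, hP t ht.2⟩

open Classical in
/-- Few permutations have few good blocks. -/
theorem few (hn : 39 ≤ n) (μ : ℝ)
    (hμ : μ = ((n / 4 : ℕ) : ℝ) * (Finset.univ.filter P).card / n.descFactorial 4) (h0 : 0 < μ) :
    ((Finset.univ.filter (fun τ : Equiv.Perm (Fin n) => (cnt P τ : ℝ) < μ / 2)).card : ℝ) ≤
      28 / μ * n.factorial := by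
  have hf : (0 : ℝ) < n.factorial := by exact_mod_cast n.factorial_pos
  have h4 : (0 : ℝ) < n.descFactorial 4 := by
    exact_mod_cast Nat.descFactorial_pos.2 (by omega)
  have h8 : (0 : ℝ) < n.descFactorial 8 := by
    exact_mod_cast Nat.descFactorial_pos.2 (by omega)
  have hn' : (0 : ℝ) < n := by
    have : 0 < n := by omega
    exact_mod_cast this
  have hsum : ∑ τ, (cnt P τ : ℝ) = n.factorial * μ := by
    have h1 := first_moment P hP
    rw [hμ, ← mul_div_assoc, eq_div_iff h4.ne', mul_comm]
    exact_mod_cast h1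
  have hsq := second_moment P hP (by omega)
  rw [div_le_iff₀ hf, ← hμ] at hsq
  have hr := desc_ratio (n := n) hn
  have hμn : μ ≤ n / 4 := by
    rw [hμ, div_le_iff₀ h4]
    have h1 : ((Finset.univ.filter P).card : ℝ) ≤ n.descFactorial 4 := by
      exact_mod_cast card_le_desc P hP
    have h2 : ((n / 4 : ℕ) : ℝ) ≤ n / 4 := Nat.cast_div_le
    have h3 : (0 : ℝ) ≤ ((n / 4 : ℕ) : ℝ) := by positivity
    have h5 : (0 : ℝ) ≤ ((Finset.univ.filter P).card : ℝ) := by positivity
    exact mul_le_mul h2 h1 h5 (by positivity)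
  have hq : (((n / 4 : ℕ) : ℝ) * (Finset.univ.filter P).card) ^ 2 / n.descFactorial 8 ≤
      μ ^ 2 * (1 + 24 / n) := by
    rw [div_le_iff₀ h8, hμ, div_pow, div_mul_eq_mul_div, div_mul_eq_mul_div, le_div_iff₀ (by positivity)]
    calc _ ≤ (((n / 4 : ℕ) : ℝ) * (Finset.univ.filter P).card) ^ 2 * ((1 + 24 / n) * n.descFactorial 8) := by
          gcongr
      _ = _ := by ring
  have hq2 : μ ^ 2 * (24 / n) ≤ 6 * μ := by
    have e : μ ^ 2 * (24 / n) = μ * (μ * (24 / n)) := by ring
    rw [e]
    have h1 : μ * (24 / n) ≤ n / 4 * (24 / n) := by gcongr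
    have h2 : (n : ℝ) / 4 * (24 / n) = 6 := by field_simp; norm_num
    rw [h2] at h1
    nlinarith
  have hv : ∑ τ, ((cnt P τ : ℝ) - μ) ^ 2 ≤ 7 * μ * n.factorial := by
    have e : ∑ τ, ((cnt P τ : ℝ) - μ) ^ 2 = ∑ τ, (cnt P τ : ℝ) ^ 2 - n.factorial * μ ^ 2 := by
      have e1 : ∀ τ : Equiv.Perm (Fin n), ((cnt P τ : ℝ) - μ) ^ 2 =
          (cnt P τ : ℝ) ^ 2 - 2 * μ * cnt P τ + μ ^ 2 := fun τ => by ring
      simp only [e1]
      rw [Finset.sum_add_distrib, Finset.sum_sub_distrib, ← Finset.mul_sum, hsum, Finset.sum_const,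
        Finset.card_univ, Fintype.card_perm, Fintype.card_fin, nsmul_eq_mul]
      ring
    rw [e]
    have h1 : (μ + (((n / 4 : ℕ) : ℝ) * (Finset.univ.filter P).card) ^ 2 / n.descFactorial 8) *
        n.factorial ≤ (μ + μ ^ 2 * (1 + 24 / n)) * n.factorial := by gcongr
    have h2 : (μ + μ ^ 2 * (1 + 24 / n)) * n.factorial ≤ (7 * μ + μ ^ 2) * n.factorial := by
      have : μ + μ ^ 2 * (1 + 24 / n) ≤ 7 * μ + μ ^ 2 := by linarith
      gcongr
    linarith
  have hlow : ((Finset.univ.filter (fun τ : Equiv.Perm (Fin n) => (cnt P τ : ℝ) < μ / 2)).card : ℝ) *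
      (μ ^ 2 / 4) ≤ ∑ τ, ((cnt P τ : ℝ) - μ) ^ 2 := by
    rw [← nsmul_eq_mul, ← Finset.sum_const]
    refine (Finset.sum_le_sum (g := fun τ => ((cnt P τ : ℝ) - μ) ^ 2) ?_).trans
      (Finset.sum_le_univ_sum_of_nonneg fun τ => sq_nonneg _)
    intro τ hτ
    rw [Finset.mem_filter] at hτ
    nlinarith [hτ.2]
  have h9 : ((Finset.univ.filter (fun τ : Equiv.Perm (Fin n) => (cnt P τ : ℝ) < μ / 2)).card : ℝ) *
      (μ ^ 2 / 4) ≤ 7 * μ * n.factorial := hlow.trans hv
  rw [div_mul_eq_mul_div, le_div_iff₀ h0]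
  have h10 : μ / 4 * (((Finset.univ.filter (fun τ : Equiv.Perm (Fin n) => (cnt P τ : ℝ) < μ / 2)).card : ℝ) * μ) ≤
      μ / 4 * (28 * n.factorial) := by linarith
  exact le_of_mul_le_mul_left h10 (by positivity)

end Pool.Agent.V8H81.Rnd
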