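import Mathlib

set_option autoImplicit false
set_option linter.unusedSectionVars false

/-! Uniform random permutations: restriction to few places. -/

namespace Pool.Agent.V8H81.Rnd

open Finset

variable {n : ℕ} {K : Type} [Fintype K] [DecidableEq K]

/-- extension of a bijection between the images of two injections -/
theorem exists_perm (t t' : K → Fin n) (ht : Function.Injective t) (ht' : Function.Injective t') :
    ∃ σ : Equiv.Perm (Fin n), ∀ k, σ (t k) = t' k := by
  classical
  let e : {x // x ∈ Set.range t} ≃ {x // x ∈ Set.range t'} :=
    (Equiv.ofInjective t ht).symm.trans (Equiv.ofInjective t' ht')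
  refine ⟨e.extendSubtype, fun k => ?_⟩
  rw [Equiv.extendSubtype_apply_of_mem e (t k) ⟨k, rfl⟩]
  have h1 : (⟨t k, ⟨k, rfl⟩⟩ : {x // x ∈ Set.range t}) = Equiv.ofInjective t ht k := rfl
  show (((Equiv.ofInjective t' ht') ((Equiv.ofInjective t ht).symm _) : {x // x ∈ Set.range t'}) : Fin n) = _
  rw [h1, Equiv.symm_apply_apply]
  rfl

open Classical in
/-- the number of the permutations with given values at given places -/
noncomputable def fib (b t : K → Fin n) : ℕ :=
  (Finset.univ.filter (fun τ : Equiv.Perm (Fin n) => ∀ k, τ (b k) = t k)).card

theorem fib_const (b t t' : K → Fin n) (ht : Function.Injective t) (ht' : Function.Injective t') :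
    fib b t = fib b t' := by
  classical
  obtain ⟨σ, hσ⟩ := exists_perm t t' ht ht'
  unfold fib
  refine Finset.card_bij (fun τ _ => τ.trans σ) ?_ ?_ ?_
  · intro τ hτ
    rw [Finset.mem_filter] at hτ ⊢
    refine ⟨Finset.mem_univ _, fun k => ?_⟩
    rw [Equiv.trans_apply, hτ.2 k, hσ k]
  · intro τ _ τ' _ h
    ext x
    have := congrArg (fun f : Equiv.Perm (Fin n) => f x) h
    simp only [Equiv.trans_apply] at this
    rw [σ.injective this]
  · intro τ hτ
    rw [Finset.mem_filter] at hτ
    refine ⟨τ.trans σ.symm, ?_, ?_⟩
    · rw [Finset.mem_filter]
      refine ⟨Finset.mem_univ _, fun k => ?_⟩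
      rw [Equiv.trans_apply, hτ.2 k, ← hσ k, Equiv.symm_apply_apply]
    · ext x
      simp

open Classical in
/-- the number of the permutations with a property of the values at given places -/
theorem card_prop (b : K → Fin n) (hb : Function.Injective b) (P : (K → Fin n) → Prop)
    (hP : ∀ t, P t → Function.Injective t) :
    (Finset.univ.filter (fun τ : Equiv.Perm (Fin n) => P (fun k => τ (b k)))).card =
      (Finset.univ.filter P).card * fib b b := by
  have h1 : (Finset.univ.filter (fun τ : Equiv.Perm (Fin n) => P (fun k => τ (b k)))).card =
      ∑ t ∈ Finset.univ.filter P, fib b t := by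
    rw [Finset.card_eq_sum_card_fiberwise (f := fun τ : Equiv.Perm (Fin n) => fun k => τ (b k))
      (t := Finset.univ.filter P)]
    · refine Finset.sum_congr rfl fun t ht => ?_
      rw [Finset.mem_filter] at ht
      unfold fib
      rw [Finset.filter_filter]
      congr 1
      ext τ
      simp only [Finset.mem_filter, Finset.mem_univ, true_and]
      constructor
      · rintro ⟨_, h⟩ k
        exact congrFun h k
      · intro h
        have e : (fun k => τ (b k)) = t := funext h
        exact ⟨e ▸ ht.2, e⟩
    · intro τ hτ
      simp only [Finset.coe_filter, Finset.mem_univ, true_and, Set.mem_ofPred_eq] at hτ ⊢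
      exact hτ
  rw [h1, Finset.sum_congr rfl (fun t ht => fib_const b t b (hP t (Finset.mem_filter.1 ht).2) hb),
    Finset.sum_const, smul_eq_mul]

open Classical in
theorem card_inj : (Finset.univ.filter (fun t : K → Fin n => Function.Injective t)).card =
    n.descFactorial (Fintype.card K) := by
  have h := Fintype.card_embedding_eq (α := K) (β := Fin n)
  rw [Fintype.card_fin] at h
  rw [← h, ← Fintype.card_subtype]
  exact Fintype.card_congr (Equiv.subtypeInjectiveEquivEmbedding K (Fin n))

theorem fib_mul (b : K → Fin n) (hb : Function.Injective b) :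
    n.descFactorial (Fintype.card K) * fib b b = n.factorial := by
  classical
  have h := card_prop b hb (fun t => Function.Injective t) (fun t ht => ht)
  have h2 := card_inj (n := n) (K := K)
  rw [← h2]
  have h3 : (Finset.univ.filter (fun t : K → Fin n => Function.Injective t)).card * fib b b =
      (Finset.univ.filter (fun τ : Equiv.Perm (Fin n) =>
        Function.Injective (fun k => τ (b k)))).card := by
    convert h.symm
  rw [h3]
  have : (Finset.univ.filter (fun τ : Equiv.Perm (Fin n) =>
      Function.Injective (fun k => τ (b k)))) = Finset.univ := by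
    ext τ
    simp only [Finset.mem_filter, Finset.mem_univ, true_and, iff_true]
    exact τ.injective.comp hb
  rw [this, Finset.card_univ, Fintype.card_perm, Fintype.card_fin]

open Classical in
theorem card_prop' (b : K → Fin n) (hb : Function.Injective b) (P : (K → Fin n) → Prop)
    (hP : ∀ t, P t → Function.Injective t) :
    n.descFactorial (Fintype.card K) *
      (Finset.univ.filter (fun τ : Equiv.Perm (Fin n) => P (fun k => τ (b k)))).card =
      n.factorial * (Finset.univ.filter P).card := by
  rw [card_prop b hb P hP, ← fib_mul b hb]
  ring

end Pool.Agent.V8H81.Rnd
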